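import Pool.Agent.Helper35.CircD.Grp
import Pool.Agent.Helper82.Circ.SC
set_option autoImplicit false
namespace Pool.Agent.Helper35.CircD
open Lt Pool.Agent.Helper82.Circ

theorem qx_mem : qx ∈ H := Subgroup.subset_closure (by simp)
theorem qy_mem : qy ∈ H := Subgroup.subset_closure (by simp)
theorem qt_mem : qt ∈ H := Subgroup.subset_closure (by simp)
theorem qz_mem : qz ∈ H := Subgroup.subset_closure (by simp)

theorem E_ext (e f : Equiv.Perm S) (he : e ∈ E) (hf : f ∈ E) (q : S) (hq : e q = f q) : e = f := by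
  rw [E_apply e he, E_apply f hf] at hq
  have h1 := (h q).injective hq
  ext p : 1
  rw [E_apply e he, E_apply f hf, h1]

def zE : E := ⟨qz, by
  rw [E, Subgroup.mem_centralizer_iff]
  intro r hr
  simp only [Set.mem_insert_iff, Set.mem_singleton_iff] at hr
  rcases hr with rfl | rfl | rfl | rfl
  · exact qz_qx.eq.symm
  · exact qz_qy.eq.symm
  · exact qz_qt.eq.symm
  · rfl⟩

def xE : E := ⟨Lm (qx one), Lm_mem _⟩
def yE : E := ⟨Lm (qy one), Lm_mem _⟩
def tE : E := ⟨Lm (qt one), Lm_mem _⟩

theorem xE_apply (r : Equiv.Perm S) (hr : r ∈ H) : xE.1 (r one) = r (qx one) := by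
  rw [E_apply _ xE.2, h_mul r hr, h_one, mul_one]
  congr 1

theorem yE_apply (r : Equiv.Perm S) (hr : r ∈ H) : yE.1 (r one) = r (qy one) := by
  rw [E_apply _ yE.2, h_mul r hr, h_one, mul_one]
  congr 1

theorem tE_apply (r : Equiv.Perm S) (hr : r ∈ H) : tE.1 (r one) = r (qt one) := by
  rw [E_apply _ tE.2, h_mul r hr, h_one, mul_one]
  congr 1

theorem rel_xy : xE * yE = yE * xE * zE := by
  apply Subtype.ext
  apply E_ext _ _ (xE * yE).2 (yE * xE * zE).2 one
  have e1 : (xE * yE).1 one = qy (qx one) := by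
    change xE.1 (yE.1 one) = _
    have : yE.1 one = qy one := Lm_one _
    rw [this, xE_apply _ qy_mem]
  have e2 : (yE * xE * zE).1 one = (qz * qx) (qy one) := by
    change yE.1 (xE.1 (qz one)) = _
    rw [xE_apply _ qz_mem]
    exact yE_apply (qz * qx) (H.mul_mem qz_mem qx_mem)
  rw [e1, e2]
  exact congrArg (fun f => f one) qy_qx

theorem rel_tx : tE * xE = xE ^ 2 * tE := by
  apply Subtype.ext
  apply E_ext _ _ (tE * xE).2 (xE ^ 2 * tE).2 one
  have e1 : (tE * xE).1 one = qx (qt one) := by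
    change tE.1 (xE.1 one) = _
    have : xE.1 one = qx one := Lm_one _
    rw [this, tE_apply _ qx_mem]
  have e2 : (xE ^ 2 * tE).1 one = (qt * qx) (qx one) := by
    rw [sq]
    change xE.1 (xE.1 (tE.1 one)) = _
    have : tE.1 one = qt one := Lm_one _
    rw [this, xE_apply _ qt_mem]
    exact xE_apply (qt * qx) (H.mul_mem qt_mem qx_mem)
  rw [e1, e2]
  exact (congrArg (fun f => f one) qt_qx_qx).symm

theorem zE_center : zE ∈ Subgroup.center E := by
  rw [Subgroup.mem_center_iff]
  intro e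
  apply Subtype.ext
  exact E_comm e.1 e.2 qz qz_mem

theorem zE_zpow (n : ℤ) : (zE ^ n).1 = qz ^ n := rfl

theorem zE_inf (n : ℤ) (hn : zE ^ n = 1) : n = 0 := by
  have h1 : (qz ^ n) one = one := by
    rw [← zE_zpow, hn]
    rfl
  unfold one at h1
  rw [qz_zpow] at h1
  have := congrArg Prod.snd h1
  simpa using this

/-- first component is unaffected by the last coordinate -/
theorem fst_indep (e : Equiv.Perm S) (he : e ∈ E) (v : Vx) (s : ℤ) : (e (v, s)).1 = (e (v, 0)).1 := by
  have h1 : (v, s) = (qz ^ s) (v, 0) := by rw [qz_zpow]; simp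
  have h2 := E_comm e he (qz ^ s) (H.zpow_mem qz_mem s)
  have h3 : e ((qz ^ s) (v, 0)) = (qz ^ s) (e (v, 0)) := by
    rw [← Equiv.Perm.mul_apply, h2, Equiv.Perm.mul_apply]
  rw [h1, h3]
  rcases e (v, 0) with ⟨u, r⟩
  rw [qz_zpow]

instance : MulAction E Vx where
  smul e v := (e.1 (v, 0)).1
  one_smul v := rfl
  mul_smul e f v := by
    change (e.1 (f.1 (v, 0))).1 = (e.1 ((f.1 (v, 0)).1, 0)).1
    rcases f.1 (v, 0) with ⟨u, r⟩
    exact fst_indep e.1 e.2 u r

theorem smul_def' (e : E) (v : Vx) : e • v = (e.1 (v, 0)).1 := rfl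

theorem smul_trans (v w : Vx) : ∃ e : E, e • v = w := by
  refine ⟨⟨Lm ((h (v, 0))⁻¹ (w, 0)), Lm_mem _⟩, ?_⟩
  rw [smul_def', E_apply _ (Lm_mem _), Lm_one]
  simp

theorem smul_stab (e : E) (v : Vx) : e • v = v ↔ e ∈ Subgroup.zpowers zE := by
  constructor
  · intro h1
    rw [smul_def'] at h1
    rw [Subgroup.mem_zpowers_iff]
    refine ⟨(e.1 (v, 0)).2, ?_⟩
    apply Subtype.ext
    apply E_ext _ _ (zE ^ (e.1 (v, 0)).2).2 e.2 (v, 0)
    rw [zE_zpow, qz_zpow, zero_add]
    exact Prod.ext h1.symm rfl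
  · intro h1
    rw [Subgroup.mem_zpowers_iff] at h1
    obtain ⟨n, rfl⟩ := h1
    rw [smul_def', zE_zpow, qz_zpow]

theorem smul_comm' (e : E) (r : Equiv.Perm S) (hr : r ∈ H) (f : Vx → Vx)
    (hf : ∀ q, (r q).1 = f q.1) (v : Vx) : e • f v = f (e • v) := by
  rw [smul_def', smul_def']
  have h1 : e.1 (r (v, 0)) = r (e.1 (v, 0)) := by
    rw [← Equiv.Perm.mul_apply, E_comm e.1 e.2 r hr, Equiv.Perm.mul_apply]
  have h2 := congrArg Prod.fst h1
  rw [hf] at h2
  rw [← h2]
  have h3 : r (v, 0) = (f v, (r (v, 0)).2) := Prod.ext (hf _) rfl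
  rw [h3]
  exact (fst_indep e.1 e.2 _ _).symm

theorem smul_rx (e : E) (v : Vx) : e • rx v = rx (e • v) :=
  smul_comm' e qx qx_mem rx (fun _ => rfl) v
theorem smul_ry (e : E) (v : Vx) : e • ry v = ry (e • v) :=
  smul_comm' e qy qy_mem ry (fun _ => rfl) v
theorem smul_rt (e : E) (v : Vx) : e • rt v = rt (e • v) :=
  smul_comm' e qt qt_mem rt (fun _ => rfl) v

/-- the triangles at `p` -/
def T1 (p : Vx) : Finset Vx := {p, rx p, ry p}
def T2 (p : Vx) : Finset Vx := {rx p, ry p, rx (ry p)}
def T3 (p : Vx) : Finset Vx := {p, rx p, rt p}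
def T4 (p : Vx) : Finset Vx := {rx p, rt p, rx (rt p)}
def T5 (p : Vx) : Finset Vx := {rx p, rx (rx p), rx (rt p)}

def IsTri (T : Finset Vx) : Prop :=
  ∃ p, T = T1 p ∨ T = T2 p ∨ T = T3 p ∨ T = T4 p ∨ T = T5 p

/-- the complex -/
def KK : SC Vx where
  faces := {s | ∃ T, IsTri T ∧ s ⊆ T}
  down := by
    rintro s t ⟨T, hT, hs⟩ hts
    exact ⟨T, hT, hts.trans hs⟩

theorem image_tri (e : E) (T : Finset Vx) (hT : IsTri T) : IsTri (T.image (e • ·)) := by
  obtain ⟨p, hp⟩ := hT
  refine ⟨e • p, ?_⟩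
  rcases hp with rfl | rfl | rfl | rfl | rfl
  · left
    simp only [T1, Finset.image_insert, Finset.image_singleton, smul_rx, smul_ry]
  · right; left
    simp only [T2, Finset.image_insert, Finset.image_singleton, smul_rx, smul_ry]
  · right; right; left
    simp only [T3, Finset.image_insert, Finset.image_singleton, smul_rx, smul_rt]
  · right; right; right; left
    simp only [T4, Finset.image_insert, Finset.image_singleton, smul_rx, smul_rt]
  · right; right; right; right
    simp only [T5, Finset.image_insert, Finset.image_singleton, smul_rx, smul_rt]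

theorem faces_inv (s : Finset Vx) (hs : s ∈ KK.faces) (e : E) : s.image (e • ·) ∈ KK.faces := by
  obtain ⟨T, hT, hs⟩ := hs
  exact ⟨_, image_tri e T hT, Finset.image_subset_image hs⟩

/-- heights -/
def hl : Lt → ℤ
  | y => 1
  | Y => -1
  | t0 => 1
  | t1 => 1
  | T => -1

def hw : List Lt → ℤ
  | [] => 0
  | a :: l => hl a + hw l

def ht (v : Vx) : ℤ := hw v.1.1

theorem ht_rx (v : Vx) : ht (rx v) = ht v := rfl
theorem ht_ry (v : Vx) : ht (ry v) = ht v + 1 := by
  rcases v with ⟨⟨_ | ⟨a, l⟩, h⟩, n⟩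
  · rfl
  · cases a
    all_goals
      unfold ht
      simp only [ry_apply, my, hw, hl]
      ring
theorem ht_rt (v : Vx) : ht (rt v) = ht v + 1 := by
  rcases v with ⟨⟨l, h⟩, n⟩
  change ht (rtf (⟨l, h⟩, n)) = _
  unfold rtf
  split_ifs with hn
  · rcases l with _ | ⟨a, l⟩
    · rfl
    · cases a
      all_goals
        unfold ht
        simp only [mt0, hw, hl]
        ring
  · unfold ht
    simp only [mt1, hw, hl]
    ring

theorem ht_H (r : Equiv.Perm S) (hr : r ∈ H) : ∃ c : ℤ, ∀ q, ht (r q).1 = ht q.1 + c := by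
  unfold H at hr
  induction hr using Subgroup.closure_induction with
  | mem r hr =>
    simp only [Set.mem_insert_iff, Set.mem_singleton_iff] at hr
    rcases hr with rfl | rfl | rfl | rfl
    · exact ⟨0, fun q => by
        rw [add_zero]
        rfl⟩
    · exact ⟨1, fun q => ht_ry q.1⟩
    · exact ⟨1, fun q => ht_rt q.1⟩
    · exact ⟨0, fun q => by
        rw [add_zero]
        rfl⟩
  | one => exact ⟨0, fun q => by simp⟩
  | mul r s _ _ h1 h2 =>
    obtain ⟨c, hc⟩ := h1
    obtain ⟨d, hd⟩ := h2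
    exact ⟨d + c, fun q => by rw [Equiv.Perm.mul_apply, hc, hd, add_assoc]⟩
  | inv r _ h1 =>
    obtain ⟨c, hc⟩ := h1
    refine ⟨-c, fun q => ?_⟩
    have := hc (r⁻¹ q)
    have e : r (r⁻¹ q) = q := by simp
    rw [e] at this
    rw [this]
    ring

theorem ht_E (e : E) : ∃ c : ℤ, ∀ v : Vx, ht (e • v) = ht v + c := by
  refine ⟨ht (e.1 one).1, fun v => ?_⟩
  rw [smul_def', E_apply e.1 e.2]
  obtain ⟨c, hc⟩ := ht_H (h (v, 0)) (h_mem _)
  have h1 := hc one
  rw [h_one_apply] at h1
  rw [hc]
  have h2 : ht one.1 = 0 := rfl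
  rw [h2] at h1
  simp only at h1
  rw [h1]
  ring

/-- two vertices of a triangle with the same height lie on the same line -/
theorem tri_ht (T : Finset Vx) (hT : IsTri T) (v w : Vx) (hv : v ∈ T) (hw : w ∈ T)
    (hvw : ht v = ht w) : v.1 = w.1 := by
  obtain ⟨p, hp⟩ := hT
  have e1 : ∀ p : Vx, (rx p).1 = p.1 := fun _ => rfl
  rcases hp with rfl | rfl | rfl | rfl | rfl
  all_goals
    simp only [T1, T2, T3, T4, T5, Finset.mem_insert, Finset.mem_singleton] at hv hw
    rcases hv with rfl | rfl | rfl <;> rcases hw with rfl | rfl | rfl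
    all_goals first | rfl | (exfalso; simp only [ht_rx, ht_ry, ht_rt] at hvw; omega)

theorem smul_line (e : E) (w : W) (n d : ℤ) (h1 : e • ((w, n) : Vx) = (w, n + d)) (m : ℤ) :
    e • ((w, m) : Vx) = (w, m + d) := by
  have key : ∀ k : ℤ, e • ((w, n + k) : Vx) = (w, n + k + d) := by
    intro k
    induction k using Int.induction_on with
    | zero => simpa using h1
    | succ i ih =>
      have h2 := smul_rx e (w, n + i)
      rw [ih] at h2
      simp only [rx_apply] at h2
      rw [← add_assoc, h2]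
      congr 1
      ring
    | pred i ih =>
      have h2 := smul_rx e (w, n + (-(i : ℤ) - 1))
      simp only [rx_apply] at h2
      have h3 : n + (-(i : ℤ) - 1) + 1 = n + -(i : ℤ) := by ring
      rw [h3, ih] at h2
      have h4 := congrArg rx.symm h2
      rw [Equiv.symm_apply_apply] at h4
      rw [← h4]
      change (w, n + -(i : ℤ) + d - 1) = _
      congr 1
      ring
  have := key (m - n)
  have h5 : n + (m - n) = m := by ring
  rw [h5] at this
  exact this

theorem face_stab (s : Finset Vx) (hs : s ∈ KK.faces) (hne : s.Nonempty) (e : E)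
    (he : s.image (e • ·) = s) : e ∈ Subgroup.zpowers zE := by
  obtain ⟨T, hT, hsT⟩ := hs
  obtain ⟨c, hc⟩ := ht_E e
  have hinj : Function.Injective (fun v : Vx => e • v) := MulAction.injective e
  have hc0 : c = 0 := by
    have h1 : ∑ v ∈ s.image (e • ·), ht v = ∑ v ∈ s, ht v := by rw [he]
    rw [Finset.sum_image (fun a _ b _ hab => hinj hab)] at h1
    simp only [hc, Finset.sum_add_distrib, Finset.sum_const, nsmul_eq_mul] at h1
    have h2 : (s.card : ℤ) * c = 0 := by linarith
    rcases mul_eq_zero.mp h2 with h3 | h3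
    · exfalso
      have := Finset.card_pos.mpr hne
      omega
    · exact h3
  obtain ⟨v, hv⟩ := hne
  have hev : e • v ∈ s := by
    rw [← he]
    exact Finset.mem_image_of_mem _ hv
  have hw : (e • v).1 = v.1 := by
    apply tri_ht T hT _ _ (hsT hev) (hsT hv)
    rw [hc, hc0, add_zero]
  rcases v with ⟨w, n⟩
  set d := (e • ((w, n) : Vx)).2 - n with hd
  have h1 : e • ((w, n) : Vx) = (w, n + d) := by
    apply Prod.ext
    · exact hw
    · simp [hd]
  have h2 := smul_line e w n d h1
  have h3 : ∀ k : ℕ, ((w, n + k * d) : Vx) ∈ s := by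
    intro k
    induction k with
    | zero => simpa using hv
    | succ k ih =>
      have h4 : e • ((w, n + k * d) : Vx) ∈ s := by
        rw [← he]
        exact Finset.mem_image_of_mem _ ih
      rw [h2] at h4
      convert h4 using 2
      push_cast
      ring
  have hd0 : d = 0 := by
    by_contra hne
    have hi : Function.Injective (fun k : ℕ => ((w, n + k * d) : Vx)) := by
      intro a b hab
      have := congrArg Prod.snd hab
      simp only [add_right_inj] at this
      have := mul_right_cancel₀ hne this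
      exact_mod_cast this
    have := Set.infinite_of_injective_forall_mem hi h3
    exact this s.finite_toSet
  rw [hd0, add_zero] at h1
  exact (smul_stab e _).mp h1

theorem locFin : KK.LocFin := by
  intro v
  let P : Finset Vx := {v, rx.symm v, ry.symm v, ry.symm (rx.symm v), rt.symm v,
    rt.symm (rx.symm v), rx.symm (rx.symm v)}
  let F : Finset (Finset Vx) := P.biUnion fun p =>
    ({T1 p, T2 p, T3 p, T4 p, T5 p} : Finset (Finset Vx)).biUnion fun T => T.powerset
  refine (F.finite_toSet).subset ?_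
  rintro s ⟨⟨T, ⟨p, hp⟩, hsT⟩, hv⟩
  have hpP : p ∈ P := by
    have hvT := hsT hv
    have e0 : rx.symm (rx p) = p := rx.symm_apply_apply p
    have e1 : ry.symm (ry p) = p := ry.symm_apply_apply p
    have e2 : rt.symm (rt p) = p := rt.symm_apply_apply p
    rcases hp with rfl | rfl | rfl | rfl | rfl
    all_goals
      simp only [T1, T2, T3, T4, T5, Finset.mem_insert, Finset.mem_singleton] at hvT
      rcases hvT with rfl | rfl | rfl <;> simp [P]
  simp only [F, Finset.coe_biUnion, Set.mem_iUnion, Finset.mem_coe]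
  refine ⟨p, hpP, T, ?_, Finset.mem_powerset.mpr hsT⟩
  simp only [Finset.mem_insert, Finset.mem_singleton]
  exact hp

end Pool.Agent.Helper35.CircD
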