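import Mathlib
set_option autoImplicit false
namespace Pool.Agent.Helper35.CircD

/-- letters -/
inductive Lt | y | Y | t0 | t1 | T
  deriving DecidableEq

open Lt

def ok : Lt → Lt → Bool
  | y, Y => false
  | Y, y => false
  | T, t0 => false
  | T, t1 => false
  | t0, T => false
  | _, _ => true

def okh (a : Lt) : List Lt → Bool
  | [] => true
  | b :: _ => ok a b

def red : List Lt → Bool
  | [] => true
  | a :: l => okh a l && red l

/-- reduced words -/
abbrev W := {l : List Lt // red l = true}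

theorem red_cons {a : Lt} {l : List Lt} (h : red (a :: l) = true) : okh a l = true ∧ red l = true := by
  simpa [red] using h

theorem red_tail {a : Lt} {l : List Lt} (h : red (a :: l) = true) : red l = true := (red_cons h).2

theorem red_mk {a : Lt} {l : List Lt} (h1 : okh a l = true) (h2 : red l = true) :
    red (a :: l) = true := by
  simp [red, h1, h2]

/-- multiplication by `y` -/
def my : W → W
  | ⟨[], _⟩ => ⟨[y], rfl⟩
  | ⟨Y :: l, h⟩ => ⟨l, red_tail h⟩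
  | ⟨y :: l, h⟩ => ⟨y :: y :: l, red_mk rfl h⟩
  | ⟨t0 :: l, h⟩ => ⟨y :: t0 :: l, red_mk rfl h⟩
  | ⟨t1 :: l, h⟩ => ⟨y :: t1 :: l, red_mk rfl h⟩
  | ⟨T :: l, h⟩ => ⟨y :: T :: l, red_mk rfl h⟩

def mY : W → W
  | ⟨[], _⟩ => ⟨[Y], rfl⟩
  | ⟨y :: l, h⟩ => ⟨l, red_tail h⟩
  | ⟨Y :: l, h⟩ => ⟨Y :: Y :: l, red_mk rfl h⟩
  | ⟨t0 :: l, h⟩ => ⟨Y :: t0 :: l, red_mk rfl h⟩
  | ⟨t1 :: l, h⟩ => ⟨Y :: t1 :: l, red_mk rfl h⟩
  | ⟨T :: l, h⟩ => ⟨Y :: T :: l, red_mk rfl h⟩

theorem mY_my (w : W) : mY (my w) = w := by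
  rcases w with ⟨_ | ⟨a, l⟩, h⟩
  · rfl
  · cases a <;> try rfl
    rcases l with _ | ⟨b, l⟩
    · rfl
    · cases b <;> first | rfl | (exfalso; simp [red, okh, ok] at h)

theorem my_mY (w : W) : my (mY w) = w := by
  rcases w with ⟨_ | ⟨a, l⟩, h⟩
  · rfl
  · cases a <;> try rfl
    rcases l with _ | ⟨b, l⟩
    · rfl
    · cases b <;> first | rfl | (exfalso; simp [red, okh, ok] at h)

def mt0 : W → W
  | ⟨[], _⟩ => ⟨[t0], rfl⟩
  | ⟨T :: l, h⟩ => ⟨l, red_tail h⟩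
  | ⟨y :: l, h⟩ => ⟨t0 :: y :: l, red_mk rfl h⟩
  | ⟨Y :: l, h⟩ => ⟨t0 :: Y :: l, red_mk rfl h⟩
  | ⟨t0 :: l, h⟩ => ⟨t0 :: t0 :: l, red_mk rfl h⟩
  | ⟨t1 :: l, h⟩ => ⟨t0 :: t1 :: l, red_mk rfl h⟩

theorem okh_t1 (l : List Lt) : okh t1 l = true := by
  rcases l with _ | ⟨a, l⟩
  · rfl
  · cases a <;> rfl

def mt1 (w : W) : W := ⟨t1 :: w.1, red_mk (okh_t1 _) w.2⟩

/-- vertices -/
abbrev Vx := W × ℤ

def rtf (p : Vx) : Vx := if p.2 % 2 = 0 then (mt0 p.1, p.2 / 2) else (mt1 p.1, p.2 / 2)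

def rti : Vx → Vx
  | (⟨[], _⟩, n) => (⟨[T], rfl⟩, 2 * n)
  | (⟨t0 :: l, h⟩, n) => (⟨l, red_tail h⟩, 2 * n)
  | (⟨t1 :: l, h⟩, n) => (⟨l, red_tail h⟩, 2 * n + 1)
  | (⟨y :: l, h⟩, n) => (⟨T :: y :: l, red_mk rfl h⟩, 2 * n)
  | (⟨Y :: l, h⟩, n) => (⟨T :: Y :: l, red_mk rfl h⟩, 2 * n)
  | (⟨T :: l, h⟩, n) => (⟨T :: T :: l, red_mk rfl h⟩, 2 * n)

theorem rti_rtf (p : Vx) : rti (rtf p) = p := by
  rcases p with ⟨⟨l, h⟩, n⟩
  unfold rtf
  split_ifs with hn
  · have hn' : 2 * (n / 2) = n := by simp only at hn; omega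
    rcases l with _ | ⟨a, l⟩
    · simp [mt0, rti, hn']
    · cases a
      · simp [mt0, rti, hn']
      · simp [mt0, rti, hn']
      · simp [mt0, rti, hn']
      · simp [mt0, rti, hn']
      · rcases l with _ | ⟨b, l⟩
        · simp [mt0, rti, hn']
        · cases b
          · simp [mt0, rti, hn']
          · simp [mt0, rti, hn']
          · exfalso; simp [red, okh, ok] at h
          · exfalso; simp [red, okh, ok] at h
          · simp [mt0, rti, hn']
  · have hn' : 2 * (n / 2) + 1 = n := by simp only at hn; omega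
    simp [mt1, rti, hn']

theorem rtf_rti (p : Vx) : rtf (rti p) = p := by
  have e0 : ∀ n : ℤ, (2 * n) % 2 = 0 := fun n => by omega
  have e1 : ∀ n : ℤ, (2 * n) / 2 = n := fun n => by omega
  have e2 : ∀ n : ℤ, (2 * n + 1) % 2 = 1 := fun n => by omega
  have e3 : ∀ n : ℤ, (2 * n + 1) / 2 = n := fun n => by omega
  rcases p with ⟨⟨_ | ⟨a, l⟩, h⟩, n⟩
  · simp [rti, rtf, mt0]
  · cases a
    · simp [rti, rtf, mt0]
    · simp [rti, rtf, mt0]
    · rcases l with _ | ⟨b, l⟩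
      · simp [rti, rtf, mt0]
      · cases b
        · simp [rti, rtf, mt0]
        · simp [rti, rtf, mt0]
        · simp [rti, rtf, mt0]
        · simp [rti, rtf, mt0]
        · exfalso; simp [red, okh, ok] at h
    · simp [rti, rtf, mt1, e2, e3]
    · simp [rti, rtf, mt0]

def rx : Equiv.Perm Vx where
  toFun p := (p.1, p.2 + 1)
  invFun p := (p.1, p.2 - 1)
  left_inv p := by simp
  right_inv p := by simp

def ry : Equiv.Perm Vx where
  toFun p := (my p.1, p.2)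
  invFun p := (mY p.1, p.2)
  left_inv p := by simp [mY_my]
  right_inv p := by simp [my_mY]

def rt : Equiv.Perm Vx where
  toFun := rtf
  invFun := rti
  left_inv := rti_rtf
  right_inv := rtf_rti

@[simp] theorem rx_apply (w : W) (n : ℤ) : rx (w, n) = (w, n + 1) := rfl
@[simp] theorem ry_apply (w : W) (n : ℤ) : ry (w, n) = (my w, n) := rfl

theorem ry_rx (p : Vx) : ry (rx p) = rx (ry p) := rfl
theorem rt_rx_rx (p : Vx) : rt (rx (rx p)) = rx (rt p) := by
  rcases p with ⟨w, n⟩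
  change rtf (w, n + 1 + 1) = rx (rtf (w, n))
  unfold rtf
  have h1 : (n + 1 + 1) % 2 = n % 2 := by omega
  have h2 : (n + 1 + 1) / 2 = n / 2 + 1 := by omega
  simp only [h1, h2]
  split_ifs <;> rfl

/-- the big set -/
abbrev S := Vx × ℤ

def qx : Equiv.Perm S where
  toFun p := (rx p.1, p.2)
  invFun p := (rx.symm p.1, p.2)
  left_inv p := by simp
  right_inv p := by simp

def qz : Equiv.Perm S where
  toFun p := (p.1, p.2 + 1)
  invFun p := (p.1, p.2 - 1)
  left_inv p := by simp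
  right_inv p := by simp

def qy : Equiv.Perm S where
  toFun p := (ry p.1, p.2 + p.1.2)
  invFun p := (ry.symm p.1, p.2 - p.1.2)
  left_inv p := by
    have : (ry p.1).2 = p.1.2 := rfl
    simp [this]
  right_inv p := by
    have : (ry.symm p.1).2 = p.1.2 := rfl
    simp [this]

def qt : Equiv.Perm S where
  toFun p := (rt p.1, p.2)
  invFun p := (rt.symm p.1, p.2)
  left_inv p := by simp
  right_inv p := by simp

theorem qy_qx : qy * qx = qz * qx * qy := by
  ext p : 1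
  rcases p with ⟨⟨w, n⟩, s⟩
  change ((my w, n + 1), s + (n + 1)) = ((my w, n + 1), s + n + 1)
  rw [add_assoc]

theorem qt_qx_qx : qt * (qx * qx) = qx * qt := by
  ext p : 1
  rcases p with ⟨p, s⟩
  change (rt (rx (rx p)), s) = (rx (rt p), s)
  rw [rt_rx_rx]

theorem qz_qx : Commute qz qx := by
  ext p : 1
  rfl
theorem qz_qt : Commute qz qt := by
  ext p : 1
  rfl
theorem qz_qy : Commute qz qy := by
  ext p : 1
  rcases p with ⟨⟨w, n⟩, s⟩
  change ((my w, n), s + n + 1) = ((my w, n), s + 1 + n)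
  congr 1
  ring

end Pool.Agent.Helper35.CircD
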