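import Pool.Agent.Helper35.CircD.Telescope
import Pool.Agent.Helper82.Circ.SC
set_option autoImplicit false
namespace Pool.Agent.Helper35.CircD
open Set Topology Pool.Agent.Helper82.Circ

theorem SDR.trans {X : Type*} [TopologicalSpace X] {A B C : Set X} {H K : ℝ → X → X}
    (hS : SDR A B H) (hK : SDR B C K) (hBA : B ⊆ A) (hCB : C ⊆ B) : ∃ L, SDR A C L := by
  have c1 : ContinuousOn (fun p : ℝ × X => H (min 1 (2 * p.1)) p.2) (Icc 0 1 ×ˢ A) := by
    have := hS.cont.comp (f := fun p : ℝ × X => (min 1 (2 * p.1), p.2))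
      (s := Icc 0 1 ×ˢ A) (by fun_prop)
      (fun p hp => ⟨⟨le_min zero_le_one (by have := hp.1.1; linarith), min_le_left _ _⟩, hp.2⟩)
    exact this
  have c2 : ContinuousOn (fun p : ℝ × X => H 1 p.2) (Icc 0 1 ×ˢ A) := by
    have := hS.cont.comp (f := fun p : ℝ × X => ((1 : ℝ), p.2))
      (s := Icc 0 1 ×ˢ A) (by fun_prop) (fun p hp => ⟨by simp, hp.2⟩)
    exact this
  have c3 : ContinuousOn (fun p : ℝ × X => K (max 0 (2 * p.1 - 1)) (H 1 p.2)) (Icc 0 1 ×ˢ A) := by
    have := hK.cont.comp (f := fun p : ℝ × X => (max 0 (2 * p.1 - 1), H 1 p.2))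
      (s := Icc 0 1 ×ˢ A) (ContinuousOn.prodMk (by fun_prop) c2)
      (fun p hp => ⟨⟨le_max_left _ _, max_le zero_le_one (by have := hp.1.2; linarith)⟩,
        hS.one _ hp.2⟩)
    exact this
  refine ⟨fun t x => if t ≤ 1 / 2 then H (min 1 (2 * t)) x else K (max 0 (2 * t - 1)) (H 1 x),
    ⟨?_, ?_, ?_, ?_, ?_⟩⟩
  · apply ContinuousOn.if
    · rintro ⟨s, x⟩ ⟨⟨_, hx⟩, hfr⟩
      have hs : s = 1 / 2 := by
        have h1 : frontier {a : ℝ × X | a.1 ≤ 1 / 2} ⊆ {a : ℝ × X | a.1 = 1 / 2} :=
          frontier_le_subset_eq continuous_fst continuous_const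
        exact h1 hfr
      try beta_reduce
      rw [hs]
      norm_num
      exact (hK.zero _ (hS.one x hx)).symm
    · exact c1.mono inter_subset_left
    · exact c3.mono inter_subset_left
  · intro t ht x hx
    try beta_reduce
    split_ifs
    · exact hS.maps _ ⟨le_min zero_le_one (by have := ht.1; linarith), min_le_left _ _⟩ x hx
    · exact hBA (hK.maps _ ⟨le_max_left _ _, max_le zero_le_one (by have := ht.2; linarith)⟩ _
        (hS.one x hx))
  · intro x hx
    try beta_reduce
    rw [if_pos (by norm_num)]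
    norm_num
    exact hS.zero x hx
  · intro x hx
    try beta_reduce
    rw [if_neg (by norm_num)]
    norm_num
    exact hK.one _ (hS.one x hx)
  · intro x hx t ht
    try beta_reduce
    split_ifs
    · exact hS.fix x (hCB hx) _ ⟨le_min zero_le_one (by have := ht.1; linarith), min_le_left _ _⟩
    · rw [hS.fix x (hCB hx) 1 (by simp)]
      exact hK.fix x hx _ ⟨le_max_left _ _, max_le zero_le_one (by have := ht.2; linarith)⟩

variable {V : Type*}

/-- the support of a point of the cone as a face -/
theorem exists_supp {K : SC V} {θ : V → ℝ} (hθ : θ ∈ K.cone) :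
    ∃ s ∈ K.faces, ∀ v, v ∈ s ↔ θ v ≠ 0 := by
  classical
  obtain ⟨_, _, s, hs, h⟩ := hθ
  refine ⟨s.filter fun v => θ v ≠ 0, K.down hs (Finset.filter_subset _ _), fun v => ?_⟩
  rw [Finset.mem_filter]
  constructor
  · exact fun h => h.2
  · intro h1
    refine ⟨?_, h1⟩
    by_contra h2
    exact h1 (h v h2)

theorem exists_pos {K : SC V} {θ : V → ℝ} (hθ : θ ∈ K.cone) : ∃ v, 0 < θ v := by
  by_contra h
  push Not at h
  apply hθ.2.1
  funext v
  exact le_antisymm (h v) (hθ.1 v)

theorem push_sdr [DecidableEq V] (K K' : SC V) (f : V → V) (hfin : ∀ v, {u | f u = v}.Finite)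
    (h1 : ∀ s ∈ K.faces, s ∪ s.image f ∈ K.faces) (h2 : ∀ s ∈ K.faces, s.image f ∈ K'.faces)
    (h3 : ∀ s ∈ K'.faces, ∀ v ∈ s, f v = v) :
    SDR K.cone K'.cone
      (fun t θ v => (1 - t) * θ v + t * ∑ u ∈ (hfin v).toFinset, θ u) := by
  have hz : ∀ (θ : V → ℝ) (s : Finset V), (∀ v ∉ s, θ v = 0) → ∀ v, v ∉ s.image f →
      ∑ u ∈ (hfin v).toFinset, θ u = 0 := by
    intro θ s hs v hv
    apply Finset.sum_eq_zero
    intro u hu
    rw [Set.Finite.mem_toFinset] at hu
    apply hs
    intro hus
    exact hv (Finset.mem_image.mpr ⟨u, hus, hu⟩)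
  have hnn : ∀ (θ : V → ℝ), (∀ v, 0 ≤ θ v) → ∀ v, 0 ≤ ∑ u ∈ (hfin v).toFinset, θ u :=
    fun θ hθ v => Finset.sum_nonneg fun u _ => hθ u
  have hpos : ∀ (θ : V → ℝ), (∀ v, 0 ≤ θ v) → ∀ v, 0 < θ v →
      0 < ∑ u ∈ (hfin (f v)).toFinset, θ u := by
    intro θ hθ v hv
    apply Finset.sum_pos' (fun u _ => hθ u)
    exact ⟨v, by simp, hv⟩
  refine ⟨?_, ?_, ?_, ?_, ?_⟩
  · apply Continuous.continuousOn
    apply continuous_pi
    intro v
    fun_prop
  · intro t ht θ hθ
    obtain ⟨v, hv⟩ := exists_pos hθ
    obtain ⟨hnon, hne, s, hs, hsz⟩ := hθ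
    refine ⟨fun v => ?_, ?_, s ∪ s.image f, h1 s hs, fun v hv => ?_⟩
    · have := hnn θ hnon v
      have := hnon v
      have := ht.1
      have := ht.2
      have : 0 ≤ 1 - t := by linarith
      positivity
    · intro h0
      by_cases ht1 : t = 1
      · have h4 := congrFun h0 (f v)
        simp only [ht1] at h4
        have := hpos θ hnon v hv
        simp at h4
        linarith
      · have h4 := congrFun h0 v
        simp only [Pi.zero_apply] at h4
        have h5 : 0 < 1 - t := by
          have := ht.2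
          rcases lt_or_eq_of_le this with h | h
          · linarith
          · exact absurd h ht1
        have h6 := mul_pos h5 hv
        have h7 := mul_nonneg ht.1 (hnn θ hnon v)
        linarith
    · simp only [Finset.mem_union, not_or] at hv
      beta_reduce
      rw [hsz v hv.1, hz θ s hsz v hv.2]
      ring
  · intro θ _
    funext v
    simp
  · intro θ hθ
    obtain ⟨v, hv⟩ := exists_pos hθ
    obtain ⟨hnon, hne, s, hs, hsz⟩ := hθ
    refine ⟨fun v => ?_, ?_, s.image f, h2 s hs, fun v hv => ?_⟩
    · have := hnn θ hnon v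
      simp only [sub_self, zero_mul, one_mul, zero_add]
      exact this
    · intro h0
      have h4 := congrFun h0 (f v)
      have := hpos θ hnon v hv
      simp at h4
      linarith
    · beta_reduce
      rw [hz θ s hsz v hv]
      ring
  · intro θ hθ t _
    obtain ⟨hnon, hne, s, hs, hsz⟩ := hθ
    funext v
    have h4 : ∑ u ∈ (hfin v).toFinset, θ u = θ v := by
      have h5 : ∀ u ∈ (hfin v).toFinset, u ≠ v → θ u = 0 := by
        intro u hu huv
        rw [Set.Finite.mem_toFinset] at hu
        apply hsz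
        intro hus
        have := h3 s hs u hus
        exact huv (this.symm.trans hu)
      by_cases hv : f v = v
      · rw [Finset.sum_eq_single v h5]
        intro h6
        exfalso
        apply h6
        rw [Set.Finite.mem_toFinset]
        exact hv
      · have h6 : θ v = 0 := by
          apply hsz
          intro h7
          exact hv (h3 s hs v h7)
        rw [h6]
        apply Finset.sum_eq_zero
        intro u hu
        by_cases huv : u = v
        · rw [huv, h6]
        · exact h5 u hu huv
    simp only [h4]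
    ring

/-- the weight of the leaf edge at `u` -/
noncomputable def mw (U : V → Prop) [DecidablePred U] (nx : Equiv.Perm V) (θ : V → ℝ) (u : V) : ℝ :=
  if U u then min (θ u) (θ (nx u)) else 0

theorem collapse_sdr [DecidableEq V] (K K' : SC V) (U : V → Prop) [DecidablePred U]
    (nx : Equiv.Perm V) (ap : V → V) (hfin : ∀ v, {u | ap u = v}.Finite)
    (hUn : ∀ v, U v → U (nx v)) (hUa : ∀ v, U v → ¬ U (ap v))
    (hn1 : ∀ v, nx v ≠ v) (hn2 : ∀ v, nx (nx v) ≠ v)
    (h1 : ∀ s ∈ K.faces, ∀ v, U v → v ∈ s → nx v ∈ s → s ⊆ {v, nx v, ap v})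
    (h2 : ∀ v, U v → {v, nx v, ap v} ∈ K.faces)
    (h3 : ∀ s ∈ K.faces, (∀ v ∈ s, U v → nx v ∉ s) → s ∈ K'.faces)
    (h4 : ∀ s ∈ K'.faces, ∀ v ∈ s, U v → nx v ∉ s) :
    SDR K.cone K'.cone
      (fun t θ v => θ v - t * mw U nx θ v - t * mw U nx θ (nx.symm v) +
        t * ∑ u ∈ (hfin v).toFinset, mw U nx θ u) := by
  have mcont : ∀ u : V, Continuous fun θ : V → ℝ => mw U nx θ u := by
    intro u
    unfold mw
    split_ifs
    · fun_prop
    · fun_prop
  have mzero : ∀ (θ : V → ℝ), (∀ u, mw U nx θ u = 0) → ∀ t : ℝ,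
      (fun v => θ v - t * mw U nx θ v - t * mw U nx θ (nx.symm v) +
        t * ∑ u ∈ (hfin v).toFinset, mw U nx θ u) = θ := by
    intro θ h t
    funext v
    simp [h]
  have mne : ∀ (θ : V → ℝ), (∀ v, 0 ≤ θ v) → ∀ u, mw U nx θ u ≠ 0 →
      U u ∧ 0 < θ u ∧ 0 < θ (nx u) ∧ 0 < mw U nx θ u ∧ mw U nx θ u = min (θ u) (θ (nx u)) := by
    intro θ hθ u hu
    unfold mw at hu ⊢
    split_ifs at hu ⊢ with hU
    · have h5 : 0 < min (θ u) (θ (nx u)) := lt_of_le_of_ne (le_min (hθ _) (hθ _)) (Ne.symm hu)
      exact ⟨hU, lt_of_lt_of_le h5 (min_le_left _ _), lt_of_lt_of_le h5 (min_le_right _ _), h5, rfl⟩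
    · exact absurd rfl hu
  -- structure in the nontrivial case
  have struct : ∀ θ ∈ K.cone, ∀ u, mw U nx θ u ≠ 0 →
      (∀ v, θ v ≠ 0 → v = u ∨ v = nx u ∨ v = ap u) ∧ (∀ u', u' ≠ u → mw U nx θ u' = 0) := by
    intro θ hθ u hu
    obtain ⟨s, hs, hsz⟩ := exists_supp hθ
    obtain ⟨hU, p1, p2, _, _⟩ := mne θ hθ.1 u hu
    have hsub := h1 s hs u hU ((hsz u).mpr p1.ne') ((hsz (nx u)).mpr p2.ne')
    have hmem : ∀ v, θ v ≠ 0 → v = u ∨ v = nx u ∨ v = ap u := by
      intro v hv
      have := hsub ((hsz v).mpr hv)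
      simpa using this
    refine ⟨hmem, fun u' hu' => ?_⟩
    by_contra hne
    obtain ⟨hU', q1, q2, _, _⟩ := mne θ hθ.1 u' hne
    rcases hmem u' q1.ne' with e | e | e
    · exact hu' e
    · rcases hmem (nx u') q2.ne' with e2 | e2 | e2
      · rw [e] at e2
        exact hn2 u e2
      · rw [e] at e2
        exact hn1 (nx u) e2
      · apply hUa u hU
        rw [← e2]
        exact hUn _ hU'
    · apply hUa u hU
      rw [← e]
      exact hU'
  -- explicit values
  have vals : ∀ (θ : V → ℝ) (u : V), U u → (∀ u', u' ≠ u → mw U nx θ u' = 0) → ∀ t : ℝ, ∀ v,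
      θ v - t * mw U nx θ v - t * mw U nx θ (nx.symm v) +
        t * ∑ u ∈ (hfin v).toFinset, mw U nx θ u =
      θ v - (if v = u then t * mw U nx θ u else 0) - (if v = nx u then t * mw U nx θ u else 0)
        + (if v = ap u then t * mw U nx θ u else 0) := by
    intro θ u _ hz t v
    have e1 : t * mw U nx θ v = if v = u then t * mw U nx θ u else 0 := by
      split_ifs with h
      · rw [h]
      · rw [hz v h, mul_zero]
    have e2 : t * mw U nx θ (nx.symm v) = if v = nx u then t * mw U nx θ u else 0 := by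
      split_ifs with h
      · rw [h, Equiv.symm_apply_apply]
      · rw [hz _ _, mul_zero]
        intro h5
        apply h
        rw [← h5, Equiv.apply_symm_apply]
    have e3 : t * ∑ u ∈ (hfin v).toFinset, mw U nx θ u =
        if v = ap u then t * mw U nx θ u else 0 := by
      split_ifs with h
      · rw [Finset.sum_eq_single u]
        · intro u' _ hu'
          exact hz u' hu'
        · intro h6
          exfalso
          apply h6
          rw [Set.Finite.mem_toFinset]
          exact h.symm
      · rw [Finset.sum_eq_zero, mul_zero]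
        intro u' hu'
        rw [Set.Finite.mem_toFinset] at hu'
        apply hz
        intro h6
        apply h
        rw [← h6]
        exact hu'.symm
    rw [e1, e2, e3]
  have pairK' : ∀ u, U u → ({u, ap u} : Finset V) ∈ K'.faces ∧ ({nx u, ap u} : Finset V) ∈ K'.faces := by
    intro u hU
    constructor
    · apply h3 _ (K.down (h2 u hU) (by intro v hv; simp only [Finset.mem_insert, Finset.mem_singleton] at hv ⊢; tauto))
      intro v hv hUv
      simp only [Finset.mem_insert, Finset.mem_singleton] at hv ⊢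
      rcases hv with rfl | rfl
      · rintro (e | e)
        · exact hn1 _ e
        · exact hUa v hU (e ▸ hUn v hU)
      · exact absurd hUv (hUa u hU)
    · apply h3 _ (K.down (h2 u hU) (by intro v hv; simp only [Finset.mem_insert, Finset.mem_singleton] at hv ⊢; tauto))
      intro v hv hUv
      simp only [Finset.mem_insert, Finset.mem_singleton] at hv ⊢
      rcases hv with rfl | rfl
      · rintro (e | e)
        · exact hn1 _ e
        · exact hUa u hU (e ▸ hUn _ (hUn u hU))
      · exact absurd hUv (hUa u hU)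
  have hua : ∀ u, U u → ap u ≠ u ∧ ap u ≠ nx u := by
    intro u hU
    exact ⟨fun e => hUa u hU (e.symm ▸ hU), fun e => hUa u hU (e.symm ▸ hUn u hU)⟩
  refine ⟨?_, ?_, ?_, ?_, ?_⟩
  · apply Continuous.continuousOn
    apply continuous_pi
    intro v
    have c1 : Continuous fun p : ℝ × (V → ℝ) => mw U nx p.2 v := (mcont v).comp continuous_snd
    have c2 : Continuous fun p : ℝ × (V → ℝ) => mw U nx p.2 (nx.symm v) :=
      (mcont _).comp continuous_snd
    have c3 : Continuous fun p : ℝ × (V → ℝ) => ∑ u ∈ (hfin v).toFinset, mw U nx p.2 u :=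
      continuous_finsetSum _ fun u _ => (mcont u).comp continuous_snd
    fun_prop
  · intro t ht θ hθ
    by_cases hall : ∀ u, mw U nx θ u = 0
    · try beta_reduce
      rw [mzero θ hall t]
      exact hθ
    · push Not at hall
      obtain ⟨u, hu⟩ := hall
      obtain ⟨hU, p1, p2, p3, p4⟩ := mne θ hθ.1 u hu
      obtain ⟨hm, hz⟩ := struct θ hθ u hu
      obtain ⟨ha1, ha2⟩ := hua u hU
      have hle1 : mw U nx θ u ≤ θ u := by rw [p4]; exact min_le_left _ _
      have hle2 : mw U nx θ u ≤ θ (nx u) := by rw [p4]; exact min_le_right _ _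
      have ht0 := ht.1
      have ht1 := ht.2
      have htm : t * mw U nx θ u ≤ mw U nx θ u := by nlinarith
      have htm0 : 0 ≤ t * mw U nx θ u := by positivity
      refine ⟨fun v => ?_, ?_, {u, nx u, ap u}, h2 u hU, fun v hv => ?_⟩
      · try beta_reduce
        rw [vals θ u hU hz t v]
        by_cases e1 : v = u
        · subst e1
          rw [if_pos rfl, if_neg (hn1 v).symm, if_neg ha1.symm]
          linarith
        · rw [if_neg e1]
          by_cases e2 : v = nx u
          · subst e2
            rw [if_pos rfl, if_neg ha2.symm]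
            linarith
          · rw [if_neg e2]
            have := hθ.1 v
            split_ifs <;> linarith
      · intro h0
        by_cases ht' : t = 0
        · apply hθ.2.1
          rw [← h0, ht']
          funext v
          simp
        · have h5 := congrFun h0 (ap u)
          beta_reduce at h5
          rw [vals θ u hU hz t (ap u), if_neg ha1, if_neg ha2, if_pos rfl] at h5
          have h6 : 0 < t := lt_of_le_of_ne ht0 (Ne.symm ht')
          have h7 := mul_pos h6 p3
          have h8 := hθ.1 (ap u)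
          simp only [Pi.zero_apply] at h5
          linarith
      · simp only [Finset.mem_insert, Finset.mem_singleton, not_or] at hv
        try beta_reduce
        rw [vals θ u hU hz t v, if_neg hv.1, if_neg hv.2.1, if_neg hv.2.2]
        have : θ v = 0 := by
          by_contra hne
          rcases hm v hne with e | e | e
          · exact hv.1 e
          · exact hv.2.1 e
          · exact hv.2.2 e
        rw [this]
        ring
  · intro θ _
    funext v
    simp
  · intro θ hθ
    by_cases hall : ∀ u, mw U nx θ u = 0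
    · try beta_reduce
      rw [mzero θ hall 1]
      obtain ⟨s, hs, hsz⟩ := exists_supp hθ
      refine ⟨hθ.1, hθ.2.1, s, h3 s hs ?_, fun v hv => ?_⟩
      · intro v hv hUv hnv
        have h5 := hall v
        unfold mw at h5
        rw [if_pos hUv] at h5
        have q1 : 0 < θ v := lt_of_le_of_ne (hθ.1 v) (Ne.symm ((hsz v).mp hv))
        have q2 : 0 < θ (nx v) := lt_of_le_of_ne (hθ.1 _) (Ne.symm ((hsz _).mp hnv))
        have := lt_min q1 q2
        linarith
      · by_contra h5
        exact hv ((hsz v).mpr h5)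
    · push Not at hall
      obtain ⟨u, hu⟩ := hall
      obtain ⟨hU, p1, p2, p3, p4⟩ := mne θ hθ.1 u hu
      obtain ⟨hm, hz⟩ := struct θ hθ u hu
      obtain ⟨ha1, ha2⟩ := hua u hU
      have hle1 : mw U nx θ u ≤ θ u := by rw [p4]; exact min_le_left _ _
      have hle2 : mw U nx θ u ≤ θ (nx u) := by rw [p4]; exact min_le_right _ _
      have hnon : ∀ v, 0 ≤ θ v - 1 * mw U nx θ v - 1 * mw U nx θ (nx.symm v) +
        1 * ∑ u ∈ (hfin v).toFinset, mw U nx θ u := by
        intro v
        rw [vals θ u hU hz 1 v]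
        by_cases e1 : v = u
        · subst e1
          rw [if_pos rfl, if_neg (hn1 v).symm, if_neg ha1.symm]
          linarith
        · rw [if_neg e1]
          by_cases e2 : v = nx u
          · subst e2
            rw [if_pos rfl, if_neg ha2.symm]
            linarith
          · rw [if_neg e2]
            have := hθ.1 v
            split_ifs <;> linarith
      have hne0 : (fun v => θ v - 1 * mw U nx θ v - 1 * mw U nx θ (nx.symm v) +
        1 * ∑ u ∈ (hfin v).toFinset, mw U nx θ u) ≠ 0 := by
        intro h0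
        have h5 := congrFun h0 (ap u)
        beta_reduce at h5
        rw [vals θ u hU hz 1 (ap u), if_neg ha1, if_neg ha2, if_pos rfl] at h5
        have h8 := hθ.1 (ap u)
        simp only [Pi.zero_apply] at h5
        linarith
      have hout : ∀ v, v ≠ u → v ≠ nx u → v ≠ ap u → θ v = 0 := by
        intro v e1 e2 e3
        by_contra hne
        rcases hm v hne with e | e | e
        · exact e1 e
        · exact e2 e
        · exact e3 e
      rcases le_total (θ u) (θ (nx u)) with hle | hle
      · have p5 : mw U nx θ u = θ u := by rw [p4, min_eq_left hle]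
        refine ⟨hnon, hne0, {nx u, ap u}, (pairK' u hU).2, fun v hv => ?_⟩
        simp only [Finset.mem_insert, Finset.mem_singleton, not_or] at hv
        beta_reduce
        rw [vals θ u hU hz 1 v, if_neg hv.1, if_neg hv.2]
        by_cases e1 : v = u
        · rw [if_pos e1, e1, p5]
          ring
        · rw [if_neg e1, hout v e1 hv.1 hv.2]
          ring
      · have p5 : mw U nx θ u = θ (nx u) := by rw [p4, min_eq_right hle]
        refine ⟨hnon, hne0, {u, ap u}, (pairK' u hU).1, fun v hv => ?_⟩
        simp only [Finset.mem_insert, Finset.mem_singleton, not_or] at hv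
        beta_reduce
        rw [vals θ u hU hz 1 v, if_neg hv.1, if_neg hv.2]
        by_cases e1 : v = nx u
        · rw [if_pos e1, e1, p5]
          ring
        · rw [if_neg e1, hout v hv.1 e1 hv.2]
          ring
  · intro θ hθ t _
    apply mzero
    intro u
    obtain ⟨s, hs, hsz⟩ := exists_supp hθ
    by_contra hne
    obtain ⟨hU, q1, q2, _, _⟩ := mne θ hθ.1 u hne
    exact h4 s hs u ((hsz u).mpr q1.ne') hU ((hsz _).mpr q2.ne')

end Pool.Agent.Helper35.CircD
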