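import Pool.Agent.Helper35.CircD.Base
set_option autoImplicit false
namespace Pool.Agent.Helper35.CircD
open Lt

/-- right multiplication by a letter -/
def act : Lt → Equiv.Perm S
  | y => qy
  | Y => qy⁻¹
  | t0 => qt
  | t1 => qt * qx
  | T => qt⁻¹

def wp : List Lt → Equiv.Perm S
  | [] => 1
  | a :: l => act a * wp l

def one : S := ((⟨[], rfl⟩, 0), 0)

/-- the permutation in the right regular representation with `h q one = q` -/
def h (q : S) : Equiv.Perm S := qz ^ q.2 * qx ^ q.1.2 * wp q.1.1.1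

theorem qx_zpow (n : ℤ) (w : W) (m s : ℤ) : (qx ^ n) ((w, m), s) = ((w, m + n), s) := by
  induction n using Int.induction_on with
  | zero => simp
  | succ i ih =>
    rw [zpow_add_one, Equiv.Perm.mul_apply]
    have : ∀ (i : ℤ) (m : ℤ), (qx ^ i) ((w, m), s) = ((w, m + i), s) → (qx ^ i) (qx ((w, m), s)) = ((w, m + (i + 1)), s) := by
      intro i m hi
      have h2 : (qx ^ i) (qx ((w, m), s)) = qx ((qx ^ i) ((w, m), s)) := by
        rw [← Equiv.Perm.mul_apply, ← Equiv.Perm.mul_apply, (Commute.refl qx).zpow_left i |>.eq]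
      rw [h2, hi]
      change ((w, m + i + 1), s) = _
      rw [add_assoc]
    exact this _ _ ih
  | pred i ih =>
    rw [zpow_sub_one, Equiv.Perm.mul_apply]
    have h2 : (qx ^ (-(i : ℤ))) (qx⁻¹ ((w, m), s)) = qx⁻¹ ((qx ^ (-(i : ℤ))) ((w, m), s)) := by
      rw [← Equiv.Perm.mul_apply, ← Equiv.Perm.mul_apply]
      congr 1
      group
    rw [h2, ih]
    change ((w, m + -(i : ℤ) - 1), s) = _
    rw [add_sub_assoc]

theorem qz_zpow (n : ℤ) (v : Vx) (s : ℤ) : (qz ^ n) (v, s) = (v, s + n) := by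
  induction n using Int.induction_on with
  | zero => simp
  | succ i ih =>
    have h2 : (qz ^ ((i : ℤ) + 1)) (v, s) = qz ((qz ^ (i : ℤ)) (v, s)) := by
      rw [← Equiv.Perm.mul_apply]
      congr 1
      group
    rw [h2, ih]
    change (v, s + i + 1) = _
    rw [add_assoc]
  | pred i ih =>
    have h2 : (qz ^ (-(i : ℤ) - 1)) (v, s) = qz⁻¹ ((qz ^ (-(i : ℤ))) (v, s)) := by
      rw [← Equiv.Perm.mul_apply]
      congr 1
      group
    rw [h2, ih]
    change (v, s + -(i : ℤ) - 1) = _
    rw [add_sub_assoc]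

theorem act_one (a : Lt) (l : List Lt) (hl : red (a :: l) = true) :
    act a ((⟨l, red_tail hl⟩, 0), 0) = ((⟨a :: l, hl⟩, 0), 0) := by
  rcases l with _ | ⟨b, l⟩
  · cases a <;> rfl
  · cases a <;> cases b <;> first | rfl | (exfalso; simp [red, okh, ok] at hl)

theorem wp_one (l : List Lt) (hl : red l = true) : wp l one = ((⟨l, hl⟩, 0), 0) := by
  induction l with
  | nil => rfl
  | cons a l ih =>
    change act a (wp l one) = _
    rw [ih (red_tail hl), act_one]

theorem h_one_apply (q : S) : h q one = q := by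
  rcases q with ⟨⟨⟨l, hl⟩, n⟩, s⟩
  unfold h
  simp only [Equiv.Perm.mul_apply]
  rw [wp_one l hl, qx_zpow, qz_zpow]
  simp

theorem h_one : h one = 1 := by
  unfold h one
  simp [wp]

theorem sc_y (n : ℤ) : qy * qx ^ n = qz ^ n * qx ^ n * qy := by
  have h1 : SemiconjBy qy qx (qz * qx) := qy_qx
  have h2 := h1.zpow_right n
  rw [SemiconjBy, qz_qx.mul_zpow] at h2
  exact h2

theorem sc_t (n : ℤ) : qt * qx ^ (2 * n) = qx ^ n * qt := by
  have h1 : SemiconjBy qt (qx * qx) qx := qt_qx_qx
  have h2 := h1.zpow_right n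
  rw [SemiconjBy] at h2
  rw [← h2, zpow_mul]
  congr 2

theorem wp_my (w : W) : wp (my w).1 = qy * wp w.1 := by
  rcases w with ⟨_ | ⟨a, l⟩, h⟩
  · rfl
  · cases a
    · rfl
    · change wp l = qy * (qy⁻¹ * wp l)
      group
    · rfl
    · rfl
    · rfl

theorem wp_mt0 (w : W) : wp (mt0 w).1 = qt * wp w.1 := by
  rcases w with ⟨_ | ⟨a, l⟩, h⟩
  · rfl
  · cases a
    · rfl
    · rfl
    · rfl
    · rfl
    · change wp l = qt * (qt⁻¹ * wp l)
      group

theorem h_qx (q : S) : h (qx q) = qx * h q := by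
  rcases q with ⟨⟨w, n⟩, s⟩
  change qz ^ s * qx ^ (n + 1) * wp w.1 = qx * (qz ^ s * qx ^ n * wp w.1)
  have h1 : qz ^ s * qx = qx * qz ^ s := (qz_qx.zpow_left s).eq
  rw [add_comm, zpow_add, zpow_one, ← mul_assoc, ← mul_assoc, ← mul_assoc, h1]

theorem h_qz (q : S) : h (qz q) = qz * h q := by
  rcases q with ⟨⟨w, n⟩, s⟩
  change qz ^ (s + 1) * qx ^ n * wp w.1 = qz * (qz ^ s * qx ^ n * wp w.1)
  rw [add_comm, zpow_add, zpow_one, ← mul_assoc, ← mul_assoc]

theorem h_qy (q : S) : h (qy q) = qy * h q := by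
  rcases q with ⟨⟨w, n⟩, s⟩
  change qz ^ (s + n) * qx ^ n * wp (my w).1 = qy * (qz ^ s * qx ^ n * wp w.1)
  have h1 : qy * qz ^ s = qz ^ s * qy := (qz_qy.zpow_left s).eq.symm
  rw [wp_my, zpow_add]
  calc qz ^ s * qz ^ n * qx ^ n * (qy * wp w.1) = qz ^ s * (qz ^ n * qx ^ n * qy) * wp w.1 := by
        group
    _ = qz ^ s * (qy * qx ^ n) * wp w.1 := by rw [sc_y]
    _ = (qz ^ s * qy) * qx ^ n * wp w.1 := by group
    _ = qy * (qz ^ s * qx ^ n * wp w.1) := by rw [← h1]; group

theorem h_qt (q : S) : h (qt q) = qt * h q := by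
  rcases q with ⟨⟨w, n⟩, s⟩
  have h1 : qt * qz ^ s = qz ^ s * qt := (qz_qt.zpow_left s).eq.symm
  have h2 : ((n / 2 : ℤ) : ℤ) * 2 + n % 2 = n := by omega
  rcases Int.emod_two_eq_zero_or_one n with hn | hn
  · have e : qt ((w, n), s) = ((mt0 w, n / 2), s) := by
      change (rtf (w, n), s) = _
      unfold rtf
      simp [hn]
    rw [e]
    change qz ^ s * qx ^ (n / 2) * wp (mt0 w).1 = qt * (qz ^ s * qx ^ n * wp w.1)
    rw [wp_mt0]
    have h3 : qx ^ n = qx ^ (2 * (n / 2)) := by congr 1; omega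
    calc qz ^ s * qx ^ (n / 2) * (qt * wp w.1) = qz ^ s * (qx ^ (n / 2) * qt) * wp w.1 := by group
      _ = qz ^ s * (qt * qx ^ (2 * (n / 2))) * wp w.1 := by rw [sc_t]
      _ = (qz ^ s * qt) * qx ^ (2 * (n / 2)) * wp w.1 := by group
      _ = qt * (qz ^ s * qx ^ n * wp w.1) := by rw [← h1, ← h3]; group
  · have e : qt ((w, n), s) = ((mt1 w, n / 2), s) := by
      change (rtf (w, n), s) = _
      unfold rtf
      simp [hn]
    rw [e]
    change qz ^ s * qx ^ (n / 2) * (qt * qx * wp w.1) = qt * (qz ^ s * qx ^ n * wp w.1)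
    have h3 : qx ^ n = qx ^ (2 * (n / 2)) * qx := by
      rw [← zpow_add_one]
      congr 1
      omega
    calc qz ^ s * qx ^ (n / 2) * (qt * qx * wp w.1) =
          qz ^ s * (qx ^ (n / 2) * qt) * qx * wp w.1 := by group
      _ = qz ^ s * (qt * qx ^ (2 * (n / 2))) * qx * wp w.1 := by rw [sc_t]
      _ = (qz ^ s * qt) * (qx ^ (2 * (n / 2)) * qx) * wp w.1 := by group
      _ = qt * (qz ^ s * qx ^ n * wp w.1) := by rw [← h1, ← h3]; group

/-- the right regular group -/
def H : Subgroup (Equiv.Perm S) := Subgroup.closure {qx, qy, qt, qz}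

theorem h_mem (q : S) : h q ∈ H := by
  have mx : qx ∈ H := Subgroup.subset_closure (by simp)
  have my' : qy ∈ H := Subgroup.subset_closure (by simp)
  have mt : qt ∈ H := Subgroup.subset_closure (by simp)
  have mz : qz ∈ H := Subgroup.subset_closure (by simp)
  have ma : ∀ a, act a ∈ H := by
    intro a
    cases a
    · exact my'
    · exact H.inv_mem my'
    · exact mt
    · exact H.mul_mem mt mx
    · exact H.inv_mem mt
  have mw : ∀ l, wp l ∈ H := by
    intro l
    induction l with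
    | nil => exact H.one_mem
    | cons a l ih => exact H.mul_mem (ma a) ih
  exact H.mul_mem (H.mul_mem (H.zpow_mem mz _) (H.zpow_mem mx _)) (mw _)

theorem h_mul (r : Equiv.Perm S) (hr : r ∈ H) : ∀ q, h (r q) = r * h q := by
  unfold H at hr
  induction hr using Subgroup.closure_induction with
  | mem r hr =>
    intro q
    simp only [Set.mem_insert_iff, Set.mem_singleton_iff] at hr
    rcases hr with rfl | rfl | rfl | rfl
    · exact h_qx q
    · exact h_qy q
    · exact h_qt q
    · exact h_qz q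
  | one => intro q; simp
  | mul r s _ _ h1 h2 => intro q; rw [Equiv.Perm.mul_apply, h1, h2, mul_assoc]
  | inv r _ h1 =>
    intro q
    have := h1 (r⁻¹ q)
    have e : r (r⁻¹ q) = q := by simp
    rw [e] at this
    rw [this]
    group

/-- the left regular group -/
def E : Subgroup (Equiv.Perm S) := Subgroup.centralizer {qx, qy, qt, qz}

theorem E_comm (e : Equiv.Perm S) (he : e ∈ E) (r : Equiv.Perm S) (hr : r ∈ H) : e * r = r * e := by
  unfold H at hr
  induction hr using Subgroup.closure_induction with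
  | mem r hr => exact (Subgroup.mem_centralizer_iff.mp he r hr).symm
  | one => simp
  | mul r s _ _ h1 h2 => rw [← mul_assoc, h1, mul_assoc, h2, mul_assoc]
  | inv r _ h1 =>
    have : Commute e r := h1
    exact this.inv_right

theorem E_apply (e : Equiv.Perm S) (he : e ∈ E) (q : S) : e q = h q (e one) := by
  have h1 := E_comm e he (h q) (h_mem q)
  have h2 := congrArg (fun f => f one) h1
  simp only [Equiv.Perm.mul_apply, h_one_apply] at h2
  exact h2

theorem h_inv_one (p : S) : h ((h p)⁻¹ one) = (h p)⁻¹ := by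
  rw [h_mul _ (H.inv_mem (h_mem p)), h_one, mul_one]

/-- left multiplication by `p` -/
def Lm (p : S) : Equiv.Perm S where
  toFun q := h q p
  invFun q := h q ((h p)⁻¹ one)
  left_inv q := by
    change h (h q p) ((h p)⁻¹ one) = q
    rw [h_mul _ (h_mem q), Equiv.Perm.mul_apply]
    have : h p ((h p)⁻¹ one) = one := by simp
    rw [this, h_one_apply]
  right_inv q := by
    change h (h q ((h p)⁻¹ one)) p = q
    rw [h_mul _ (h_mem q), Equiv.Perm.mul_apply, h_inv_one]
    have : (h p)⁻¹ p = one := by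
      rw [Equiv.Perm.inv_eq_iff_eq, h_one_apply]
    rw [this, h_one_apply]

theorem Lm_one (p : S) : Lm p one = p := by
  change h one p = p
  rw [h_one]
  rfl

theorem Lm_mem (p : S) : Lm p ∈ E := by
  rw [E, Subgroup.mem_centralizer_iff]
  intro r hr
  have hr' : r ∈ H := Subgroup.subset_closure hr
  ext q : 1
  change r (h q p) = h (r q) p
  rw [h_mul r hr']
  rfl

end Pool.Agent.Helper35.CircD
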