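import Pool.Agent.Helper35.CircD.Strip
import Pool.Agent.Helper35.CircD.Collapse
set_option autoImplicit false
namespace Pool.Agent.Helper35.CircD
open Lt Topology Pool.Agent.Helper82.Circ

def lev (v : Vx) : ℕ := v.1.1.length

theorem lev_rx (v : Vx) : lev (rx v) = lev v := rfl

/-- lowering a vertex to the parent line -/
def lowerQ (Q : Lt → ℤ → ℤ) : Vx → Vx
  | (⟨[], h⟩, n) => (⟨[], h⟩, n)
  | (⟨a :: l, h⟩, n) => (⟨l, red_tail h⟩, Q a n)

def cand (m : ℤ) : Finset ℤ :=
  {m - 1, m, (m - 1) / 2, (m - 2) / 2, m / 2, 2 * m - 1, 2 * m, 2 * m + 1}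

theorem lowerQ_fin (Q : Lt → ℤ → ℤ) (hQ : ∀ a n, n ∈ cand (Q a n)) (v : Vx) :
    {u | lowerQ Q u = v}.Finite := by
  classical
  let gf : Lt × ℤ → Vx := fun p =>
    if h : red (p.1 :: v.1.1) = true then (⟨p.1 :: v.1.1, h⟩, p.2) else v
  let Ls : Finset Lt := {y, Y, t0, t1, T}
  let FF : Finset Vx := insert v ((Ls ×ˢ cand v.2).image gf)
  refine (FF.finite_toSet).subset ?_
  rintro ⟨⟨l, h⟩, n⟩ hu
  rcases l with _ | ⟨a, l⟩
  · have : (((⟨[], h⟩, n) : Vx)) = v := hu
    simp [this, FF]
  · have hu' : (((⟨l, red_tail h⟩, Q a n) : Vx)) = v := hu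
    subst hu'
    rw [Finset.mem_coe, Finset.mem_insert, Finset.mem_image]
    right
    refine ⟨(a, n), ?_, ?_⟩
    · rw [Finset.mem_product]
      refine ⟨?_, hQ a n⟩
      cases a <;> simp [Ls]
    · simp only [gf]
      rw [dif_pos h]

def ap : Vx → Vx := lowerQ Aa
def par : Vx → Vx := lowerQ Pp

theorem ap_fin (v : Vx) : {u | ap u = v}.Finite := by
  apply lowerQ_fin
  intro a n
  cases a
  · have : n = (n + 1) - 1 := by omega
    simp only [Aa, cand, Finset.mem_insert, Finset.mem_singleton]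
    exact Or.inl this
  · simp [Aa, cand]
  · have : n = (2 * n + 1) / 2 := by omega
    simp only [Aa, cand, Finset.mem_insert, Finset.mem_singleton]
    omega
  · simp only [Aa, cand, Finset.mem_insert, Finset.mem_singleton]
    omega
  · simp only [Aa, cand, Finset.mem_insert, Finset.mem_singleton]
    omega

theorem par_fin (v : Vx) : {u | par u = v}.Finite := by
  apply lowerQ_fin
  intro a n
  cases a
  · simp [Pp, cand]
  · simp [Pp, cand]
  · simp only [Pp, cand, Finset.mem_insert, Finset.mem_singleton]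
    omega
  · simp only [Pp, cand, Finset.mem_insert, Finset.mem_singleton]
    omega
  · simp only [Pp, cand, Finset.mem_insert, Finset.mem_singleton]
    omega

/-- words of length at most `k` -/
def KL (k : ℕ) : SC Vx where
  faces := {s | s ∈ KK.faces ∧ ∀ v ∈ s, lev v ≤ k}
  down := fun hs hts => ⟨KK.down hs.1 hts, fun v hv => hs.2 v (hts hv)⟩

def KH (k : ℕ) : SC Vx where
  faces := {s | s ∈ KK.faces ∧ (∀ v ∈ s, lev v ≤ k + 1) ∧ ∀ v ∈ s, lev v = k + 1 → rx v ∉ s}
  down := fun hs hts => ⟨KK.down hs.1 hts, fun v hv => hs.2.1 v (hts hv),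
    fun v hv hl h => hs.2.2 v (hts hv) hl (hts h)⟩

theorem rx_ne (v : Vx) : rx v ≠ v := by
  intro h
  have := congrArg Prod.snd h
  change v.2 + 1 = v.2 at this
  omega

theorem rx_rx_ne (v : Vx) : rx (rx v) ≠ v := by
  intro h
  have := congrArg Prod.snd h
  change v.2 + 1 + 1 = v.2 at this
  omega

theorem lev_ap (v : Vx) (k : ℕ) (hv : lev v = k + 1) : lev (ap v) = k := by
  rcases v with ⟨⟨_ | ⟨a, l⟩, h⟩, n⟩
  · simp [lev] at hv
  · simp only [lev, List.length_cons] at hv
    change l.length = k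
    omega

theorem lev_par (v : Vx) (k : ℕ) (hv : lev v = k + 1) : lev (par v) = k := by
  rcases v with ⟨⟨_ | ⟨a, l⟩, h⟩, n⟩
  · simp [lev] at hv
  · simp only [lev, List.length_cons] at hv
    change l.length = k
    omega

theorem mem_up {a : Lt} {l : List Lt} {h : red (a :: l) = true} {n : ℤ} {v : Vx} :
    v ∈ up a l h n ↔ v = (⟨a :: l, h⟩, n) ∨ v = (⟨a :: l, h⟩, n + 1) ∨
      v = (⟨l, red_tail h⟩, Aa a n) := by
  simp [up]

theorem mem_low {a : Lt} {l : List Lt} {h : red (a :: l) = true} {n : ℤ} {v : Vx} :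
    v ∈ low a l h n ↔ v = (⟨l, red_tail h⟩, n) ∨ v = (⟨l, red_tail h⟩, n + 1) ∨
      v = (⟨a :: l, h⟩, Cc a n) := by
  simp [low]

theorem word_ne {a : Lt} {l : List Lt} {h : red (a :: l) = true} {m n : ℤ} :
    ((⟨a :: l, h⟩, m) : Vx) ≠ (⟨l, red_tail h⟩, n) := by
  intro e
  have h1 := congrArg (fun v : Vx => v.1.1.length) e
  simp at h1

theorem collapse_h1 (k : ℕ) (s : Finset Vx) (hs : s ∈ (KL (k + 1)).faces) (v : Vx)
    (hl : lev v = k + 1) (hv : v ∈ s) (hnv : rx v ∈ s) : s ⊆ {v, rx v, ap v} := by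
  obtain ⟨hs1, hs2⟩ := hs
  obtain ⟨a, l, h, ⟨n, hn⟩ | ⟨m, hm⟩⟩ := face_strip s hs1
  · rcases mem_up.mp (hn hv) with rfl | rfl | rfl
    · exact hn
    · exfalso
      rcases mem_up.mp (hn hnv) with e | e | e
      · have := congrArg Prod.snd e
        simp only [rx_apply] at this
        omega
      · have := congrArg Prod.snd e
        simp only [rx_apply] at this
        omega
      · exact word_ne e
    · exfalso
      rcases mem_up.mp (hn hnv) with e | e | e
      · exact word_ne e.symm
      · exact word_ne e.symm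
      · have := congrArg Prod.snd e
        simp only [rx_apply] at this
        omega
  · rcases mem_low.mp (hm hv) with rfl | rfl | rfl
    · intro u hu
      simp only [Finset.mem_insert, Finset.mem_singleton]
      rcases mem_low.mp (hm hu) with e | e | e
      · left; exact e
      · right; left; exact e
      · exfalso
        have := hs2 u hu
        rw [e] at this
        simp only [lev, List.length_cons] at this hl
        omega
    · exfalso
      rcases mem_low.mp (hm hnv) with e | e | e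
      · have := congrArg Prod.snd e
        simp only [rx_apply] at this
        omega
      · have := congrArg Prod.snd e
        simp only [rx_apply] at this
        omega
      · exact word_ne e.symm
    · exfalso
      rcases mem_low.mp (hm hnv) with e | e | e
      · exact word_ne e
      · exact word_ne e
      · have := congrArg Prod.snd e
        simp only [rx_apply] at this
        omega

theorem collapse_h2 (k : ℕ) (v : Vx) (hl : lev v = k + 1) :
    ({v, rx v, ap v} : Finset Vx) ∈ (KL (k + 1)).faces := by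
  have h1 := lev_ap v k hl
  refine ⟨?_, ?_⟩
  · rcases v with ⟨⟨_ | ⟨a, l⟩, h⟩, n⟩
    · simp [lev] at hl
    · exact up_face a l h n
  · intro u hu
    simp only [Finset.mem_insert, Finset.mem_singleton] at hu
    rcases hu with rfl | rfl | rfl
    · omega
    · rw [lev_rx]; omega
    · omega

theorem sdr1 (k : ℕ) : ∃ H, SDR (KL (k + 1)).cone (KH k).cone H :=
  ⟨_, collapse_sdr (KL (k + 1)) (KH k) (fun v => lev v = k + 1) rx ap ap_fin
    (fun v hv => hv) (fun v hv h => by have := lev_ap v k hv; omega) rx_ne rx_rx_ne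
    (fun s hs v hl hv hnv => collapse_h1 k s hs v hl hv hnv) (fun v hl => collapse_h2 k v hl)
    (fun s hs h => ⟨hs.1, hs.2, h⟩) (fun s hs v hv hl => hs.2.2 v hv hl)⟩

/-- the pushing map -/
def fk (k : ℕ) (v : Vx) : Vx := if lev v = k + 1 then par v else v

theorem fk_fin (k : ℕ) (v : Vx) : {u | fk k u = v}.Finite := by
  refine ((Set.finite_singleton v).union (par_fin v)).subset ?_
  intro u hu
  simp only [Set.mem_ofPred_eq] at hu
  unfold fk at hu
  split_ifs at hu
  · right; exact hu
  · left; exact hu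

theorem face_f1 (a : Lt) (l : List Lt) (h : red (a :: l) = true) (n : ℤ) :
    ({(⟨a :: l, h⟩, n), (⟨l, red_tail h⟩, Aa a n), (⟨l, red_tail h⟩, Pp a n)} : Finset Vx)
      ∈ KK.faces := by
  have useUp : Pp a n = Aa a n → _ := fun e => KK.down (up_face a l h n)
    (t := {(⟨a :: l, h⟩, n), (⟨l, red_tail h⟩, Aa a n), (⟨l, red_tail h⟩, Pp a n)}) (by
      intro v hv
      simp only [Finset.mem_insert, Finset.mem_singleton] at hv
      rw [mem_up]
      rw [e] at hv
      tauto)
  have useLow : ∀ m, Cc a m = n → (Aa a n = m ∨ Aa a n = m + 1) → (Pp a n = m ∨ Pp a n = m + 1) →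
      _ := fun m e1 e2 e3 => KK.down (low_face a l h m)
    (t := {(⟨a :: l, h⟩, n), (⟨l, red_tail h⟩, Aa a n), (⟨l, red_tail h⟩, Pp a n)}) (by
      intro v hv
      simp only [Finset.mem_insert, Finset.mem_singleton] at hv
      rw [mem_low, e1]
      rcases hv with rfl | rfl | rfl
      · right; right; rfl
      · rcases e2 with e2 | e2 <;> rw [e2]
        · left; rfl
        · right; left; rfl
      · rcases e3 with e3 | e3 <;> rw [e3]
        · left; rfl
        · right; left; rfl)
  cases a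
  · exact useLow n rfl (Or.inr rfl) (Or.inl rfl)
  · exact useUp rfl
  · exact useLow (2 * n) (by simp only [Cc]; omega) (Or.inr rfl) (Or.inl rfl)
  · exact useLow (2 * n + 1) (by simp only [Cc]; omega) (Or.inr (by simp only [Aa]; omega)) (Or.inl rfl)
  · rcases Int.even_or_odd' n with ⟨j, rfl | rfl⟩
    · exact useUp (by simp only [Pp, Aa]; omega)
    · exact useLow j (by simp only [Cc]) (Or.inr (by simp only [Aa]; omega))
        (Or.inl (by simp only [Pp]; omega))

theorem face_f2 (a : Lt) (l : List Lt) (h : red (a :: l) = true) (n : ℤ) :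
    ({(⟨a :: l, h⟩, n + 1), (⟨l, red_tail h⟩, Aa a n), (⟨l, red_tail h⟩, Pp a (n + 1))} : Finset Vx)
      ∈ KK.faces := by
  have useUp : Pp a (n + 1) = Aa a n → _ := fun e => KK.down (up_face a l h n)
    (t := {(⟨a :: l, h⟩, n + 1), (⟨l, red_tail h⟩, Aa a n), (⟨l, red_tail h⟩, Pp a (n + 1))}) (by
      intro v hv
      simp only [Finset.mem_insert, Finset.mem_singleton] at hv
      rw [mem_up]
      rw [e] at hv
      tauto)
  have useLow : ∀ m, Cc a m = n + 1 → (Aa a n = m ∨ Aa a n = m + 1) →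
      (Pp a (n + 1) = m ∨ Pp a (n + 1) = m + 1) →
      _ := fun m e1 e2 e3 => KK.down (low_face a l h m)
    (t := {(⟨a :: l, h⟩, n + 1), (⟨l, red_tail h⟩, Aa a n), (⟨l, red_tail h⟩, Pp a (n + 1))}) (by
      intro v hv
      simp only [Finset.mem_insert, Finset.mem_singleton] at hv
      rw [mem_low, e1]
      rcases hv with rfl | rfl | rfl
      · right; right; rfl
      · rcases e2 with e2 | e2 <;> rw [e2]
        · left; rfl
        · right; left; rfl
      · rcases e3 with e3 | e3 <;> rw [e3]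
        · left; rfl
        · right; left; rfl)
  cases a
  · exact useUp rfl
  · exact useLow n rfl (Or.inl rfl) (Or.inr rfl)
  · exact useLow (2 * n + 1) (by simp only [Cc]; omega) (Or.inl rfl) (Or.inr (by simp only [Pp]; omega))
  · exact useLow (2 * n + 2) (by simp only [Cc]; omega) (Or.inl (by simp only [Aa]))
      (Or.inr (by simp only [Pp]; omega))
  · exact useUp (by simp only [Pp, Aa])

theorem red_y : red [y] = true := rfl

theorem face_par (v : Vx) : ({v, par v} : Finset Vx) ∈ KK.faces := by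
  rcases v with ⟨⟨_ | ⟨a, l⟩, h⟩, n⟩
  · have h1 := low_face y [] red_y n
    refine KK.down h1 ?_
    intro u hu
    simp only [Finset.mem_insert, Finset.mem_singleton] at hu
    rw [mem_low]
    rcases hu with rfl | rfl <;> left <;> rfl
  · have h1 := face_f1 a l h n
    refine KK.down h1 ?_
    intro u hu
    simp only [Finset.mem_insert, Finset.mem_singleton] at hu ⊢
    rcases hu with rfl | rfl
    · left; rfl
    · right; right; rfl

theorem Pp_Cc (a : Lt) (m : ℤ) : Pp a (Cc a m) = m ∨ Pp a (Cc a m) = m + 1 := by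
  cases a
  · left; rfl
  · right; rfl
  · simp only [Pp, Cc]; omega
  · simp only [Pp, Cc]; omega
  · left; simp only [Pp, Cc]; omega

theorem push_union (k : ℕ) (s : Finset Vx) (hs : s ∈ (KH k).faces) :
    ∃ t ∈ KK.faces, ∀ u ∈ s, u ∈ t ∧ fk k u ∈ t := by
  obtain ⟨hs1, hs2, hs3⟩ := hs
  have hfk0 : ∀ u : Vx, lev u ≠ k + 1 → fk k u = u := fun u hu => if_neg hu
  have hfk1 : ∀ u : Vx, lev u = k + 1 → fk k u = par u := fun u hu => if_pos hu
  obtain ⟨a, l, h, ⟨n, hn⟩ | ⟨m, hm⟩⟩ := face_strip s hs1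
  · have l1 : ∀ m : ℤ, lev ((⟨a :: l, h⟩, m) : Vx) = l.length + 1 := fun _ => rfl
    have l2 : ∀ m : ℤ, lev ((⟨l, red_tail h⟩, m) : Vx) = l.length := fun _ => rfl
    rcases lt_trichotomy l.length k with hL | hL | hL
    · refine ⟨_, up_face a l h n, fun u hu => ?_⟩
      have hu' := hn hu
      have hlu : lev u ≠ k + 1 := by
        rcases mem_up.mp hu' with rfl | rfl | rfl
        · rw [l1]; omega
        · rw [l1]; omega
        · rw [l2]; omega
      rw [hfk0 u hlu]
      exact ⟨hu', hu'⟩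
    · by_cases hin : ((⟨a :: l, h⟩, n) : Vx) ∈ s
      · refine ⟨_, face_f1 a l h n, fun u hu => ?_⟩
        have hnot := hs3 _ hin (by rw [l1]; omega)
        rcases mem_up.mp (hn hu) with rfl | rfl | rfl
        · rw [hfk1 _ (by rw [l1]; omega)]
          rw [Finset.mem_insert, Finset.mem_insert, Finset.mem_insert, Finset.mem_insert,
            Finset.mem_singleton, Finset.mem_singleton]
          exact ⟨Or.inl rfl, Or.inr (Or.inr rfl)⟩
        · exact absurd hu hnot
        · rw [hfk0 _ (by rw [l2]; omega)]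
          rw [Finset.mem_insert, Finset.mem_insert]
          exact ⟨Or.inr (Or.inl rfl), Or.inr (Or.inl rfl)⟩
      · refine ⟨_, face_f2 a l h n, fun u hu => ?_⟩
        rcases mem_up.mp (hn hu) with rfl | rfl | rfl
        · exact absurd hu hin
        · rw [hfk1 _ (by rw [l1]; omega)]
          rw [Finset.mem_insert, Finset.mem_insert, Finset.mem_insert, Finset.mem_insert,
            Finset.mem_singleton, Finset.mem_singleton]
          exact ⟨Or.inl rfl, Or.inr (Or.inr rfl)⟩
        · rw [hfk0 _ (by rw [l2]; omega)]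
          rw [Finset.mem_insert, Finset.mem_insert]
          exact ⟨Or.inr (Or.inl rfl), Or.inr (Or.inl rfl)⟩
    · refine ⟨_, face_par (⟨l, red_tail h⟩, Aa a n), fun u hu => ?_⟩
      have hlu := hs2 u hu
      rcases mem_up.mp (hn hu) with rfl | rfl | rfl
      · exfalso; rw [l1] at hlu; omega
      · exfalso; rw [l1] at hlu; omega
      · rw [hfk1 _ (by rw [l2] at hlu ⊢; omega)]
        simp
  · have l1 : ∀ m : ℤ, lev ((⟨a :: l, h⟩, m) : Vx) = l.length + 1 := fun _ => rfl
    have l2 : ∀ m : ℤ, lev ((⟨l, red_tail h⟩, m) : Vx) = l.length := fun _ => rfl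
    rcases lt_trichotomy l.length k with hL | hL | hL
    · refine ⟨_, low_face a l h m, fun u hu => ?_⟩
      have hu' := hm hu
      have hlu : lev u ≠ k + 1 := by
        rcases mem_low.mp hu' with rfl | rfl | rfl
        · rw [l2]; omega
        · rw [l2]; omega
        · rw [l1]; omega
      rw [hfk0 u hlu]
      exact ⟨hu', hu'⟩
    · refine ⟨_, low_face a l h m, fun u hu => ?_⟩
      have hu' := hm hu
      refine ⟨hu', ?_⟩
      rcases mem_low.mp hu' with rfl | rfl | rfl
      · rw [hfk0 _ (by rw [l2]; omega)]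
        exact hu'
      · rw [hfk0 _ (by rw [l2]; omega)]
        exact hu'
      · rw [hfk1 _ (by rw [l1]; omega)]
        have e : par ((⟨a :: l, h⟩, Cc a m) : Vx) = (⟨l, red_tail h⟩, Pp a (Cc a m)) := rfl
        rw [e, mem_low]
        rcases Pp_Cc a m with e2 | e2
        · left; rw [e2]
        · right; left; rw [e2]
    · by_cases hin : ((⟨l, red_tail h⟩, m) : Vx) ∈ s
      · refine ⟨_, face_par (⟨l, red_tail h⟩, m), fun u hu => ?_⟩
        have hlu := hs2 u hu
        rcases mem_low.mp (hm hu) with rfl | rfl | rfl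
        · rw [hfk1 _ (by rw [l2] at hlu ⊢; omega)]
          simp
        · exfalso
          exact hs3 _ hin (by rw [l2] at hlu ⊢; omega) hu
        · exfalso; rw [l1] at hlu; omega
      · refine ⟨_, face_par (⟨l, red_tail h⟩, m + 1), fun u hu => ?_⟩
        have hlu := hs2 u hu
        rcases mem_low.mp (hm hu) with rfl | rfl | rfl
        · exact absurd hu hin
        · rw [hfk1 _ (by rw [l2] at hlu ⊢; omega)]
          simp
        · exfalso; rw [l1] at hlu; omega

theorem lev_fk (k : ℕ) (u : Vx) (hu : lev u ≤ k + 1) : lev (fk k u) ≤ k := by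
  unfold fk
  split_ifs with h
  · rw [lev_par u k h]
  · omega

theorem sdr2 (k : ℕ) : ∃ H, SDR (KH k).cone (KL k).cone H := by
  refine ⟨_, push_sdr (KH k) (KL k) (fk k) (fk_fin k) ?_ ?_ ?_⟩
  · intro s hs
    obtain ⟨t, ht, htu⟩ := push_union k s hs
    refine ⟨KK.down ht ?_, ?_, ?_⟩
    · intro u hu
      rw [Finset.mem_union, Finset.mem_image] at hu
      rcases hu with hu | ⟨v, hv, rfl⟩
      · exact (htu u hu).1
      · exact (htu v hv).2
    · intro u hu
      rw [Finset.mem_union, Finset.mem_image] at hu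
      rcases hu with hu | ⟨v, hv, rfl⟩
      · exact hs.2.1 u hu
      · have := lev_fk k v (hs.2.1 v hv)
        omega
    · intro u hu hl hn
      have key : ∀ u, lev u = k + 1 → u ∈ s ∪ s.image (fk k) → u ∈ s := by
        intro u hl hu
        rw [Finset.mem_union, Finset.mem_image] at hu
        rcases hu with hu | ⟨v, hv, rfl⟩
        · exact hu
        · exfalso
          have := lev_fk k v (hs.2.1 v hv)
          omega
      exact hs.2.2 u (key u hl hu) hl (key _ (by rw [lev_rx]; exact hl) hn)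
  · intro s hs
    obtain ⟨t, ht, htu⟩ := push_union k s hs
    refine ⟨KK.down ht ?_, ?_⟩
    · intro u hu
      rw [Finset.mem_image] at hu
      obtain ⟨v, hv, rfl⟩ := hu
      exact (htu v hv).2
    · intro u hu
      rw [Finset.mem_image] at hu
      obtain ⟨v, hv, rfl⟩ := hu
      exact lev_fk k v (hs.2.1 v hv)
  · intro s hs v hv
    have := hs.2 v hv
    exact if_neg (by omega)

theorem cone_mono {V : Type*} (K K' : SC V) (h : K'.faces ⊆ K.faces) : K'.cone ⊆ K.cone := by
  rintro θ ⟨h1, h2, s, hs, h3⟩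
  exact ⟨h1, h2, s, h hs, h3⟩

theorem sdr_step (k : ℕ) : ∃ H, SDR (KL (k + 1)).cone (KL k).cone H := by
  obtain ⟨H1, h1⟩ := sdr1 k
  obtain ⟨H2, h2⟩ := sdr2 k
  refine h1.trans h2 (cone_mono _ _ ?_) (cone_mono _ _ ?_)
  · intro s hs
    exact ⟨hs.1, hs.2.1⟩
  · intro s hs
    exact ⟨hs.1, fun v hv => by have := hs.2 v hv; omega, fun v hv hl => by
      have := hs.2 v hv; omega⟩

theorem sdr_big : ∃ H, SDR KK.cone (KL 0).cone H := by
  choose h hF using sdr_step
  refine telescope (F := fun k => (KL k).cone) hF ?_ KK.cone ?_ ?_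
  · intro k
    exact cone_mono _ _ fun s hs => ⟨hs.1, fun v hv => by have := hs.2 v hv; omega⟩
  · intro k
    exact cone_mono _ _ fun s hs => hs.1
  · intro θ hθ
    obtain ⟨v, hv⟩ := exists_pos hθ
    have key : ∀ θ' ∈ KK.cone, 0 < θ' v → θ' ∈ (KL (lev v + 1)).cone := by
      intro θ' hθ' hv'
      obtain ⟨s, hs, hsz⟩ := exists_supp hθ'
      refine ⟨hθ'.1, hθ'.2.1, s, ⟨hs, ?_⟩, fun u hu => ?_⟩
      · intro u hu
        have hvs : v ∈ s := (hsz v).mpr hv'.ne'
        obtain ⟨a, l, h, ⟨n, hn⟩ | ⟨m, hm⟩⟩ := face_strip s hs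
        · have e1 := mem_up.mp (hn hvs)
          have e2 := mem_up.mp (hn hu)
          rcases e1 with rfl | rfl | rfl <;> rcases e2 with rfl | rfl | rfl <;>
            simp only [lev, List.length_cons] <;> omega
        · have e1 := mem_low.mp (hm hvs)
          have e2 := mem_low.mp (hm hu)
          rcases e1 with rfl | rfl | rfl <;> rcases e2 with rfl | rfl | rfl <;>
            simp only [lev, List.length_cons] <;> omega
      · by_contra h
        exact hu ((hsz u).mpr h)
    refine ⟨lev v + 1, key θ hθ hv, ?_⟩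
    have hopen : {θ' : Vx → ℝ | 0 < θ' v} ∈ 𝓝 θ :=
      (isOpen_lt continuous_const (continuous_apply v)).mem_nhds hv
    filter_upwards [self_mem_nhdsWithin, mem_nhdsWithin_of_mem_nhds hopen] with θ' h1 h2
    exact key θ' h1 h2

/-- pieces of the base line -/
def JL (k : ℕ) : SC Vx where
  faces := {s | s ∈ KK.faces ∧ ∀ v ∈ s, lev v = 0 ∧ |v.2| ≤ k}
  down := fun hs hts => ⟨KK.down hs.1 hts, fun v hv => hs.2 v (hts hv)⟩

def gk (k : ℕ) (v : Vx) : Vx :=
  if v.2 = k + 1 then (v.1, k) else if v.2 = -(k + 1) then (v.1, -k) else v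

theorem gk_fin (k : ℕ) (v : Vx) : {u | gk k u = v}.Finite := by
  refine (({v, (v.1, (k : ℤ) + 1), (v.1, -((k : ℤ) + 1))} : Finset Vx).finite_toSet).subset ?_
  rintro ⟨w, n⟩ hu
  simp only [Set.mem_ofPred_eq] at hu
  unfold gk at hu
  simp only at hu
  simp only [Finset.coe_insert, Finset.coe_singleton, Set.mem_insert_iff, Set.mem_singleton_iff]
  split_ifs at hu with h1 h2
  · right; left
    rw [← hu, h1]
  · right; right
    rw [← hu, h2]
  · left; exact hu

theorem lev_zero (v : Vx) (hv : lev v = 0) : v = (⟨[], rfl⟩, v.2) := by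
  rcases v with ⟨⟨_ | ⟨a, l⟩, h⟩, n⟩
  · rfl
  · simp [lev] at hv

theorem line_face (s : Finset Vx) (hs : s ∈ KK.faces) (h0 : ∀ v ∈ s, lev v = 0) :
    ∃ m : ℤ, ∀ v ∈ s, v.2 = m ∨ v.2 = m + 1 := by
  obtain ⟨a, l, h, ⟨n, hn⟩ | ⟨m, hm⟩⟩ := face_strip s hs
  · refine ⟨Aa a n, fun v hv => ?_⟩
    have := h0 v hv
    rcases mem_up.mp (hn hv) with rfl | rfl | rfl
    · simp [lev] at this
    · simp [lev] at this
    · left; rfl
  · refine ⟨m, fun v hv => ?_⟩
    have := h0 v hv
    rcases mem_low.mp (hm hv) with rfl | rfl | rfl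
    · left; rfl
    · right; rfl
    · simp [lev] at this

theorem line_union (k : ℕ) (s : Finset Vx) (hs : s ∈ (JL (k + 1)).faces) :
    ∃ t ∈ KK.faces, ∀ u ∈ s, u ∈ t ∧ gk k u ∈ t := by
  obtain ⟨hs1, hs2⟩ := hs
  obtain ⟨m, hm⟩ := line_face s hs1 (fun v hv => (hs2 v hv).1)
  have hmem : ∀ m n : ℤ, (n = m ∨ n = m + 1) → (((⟨[], rfl⟩, n) : Vx)) ∈ low y [] red_y m := by
    intro m n h
    rw [mem_low]
    rcases h with rfl | rfl
    · left; rfl
    · right; left; rfl
  have gen : ∀ m' : ℤ, (∀ v ∈ s, (v.2 = m' ∨ v.2 = m' + 1) ∧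
      ((gk k v).2 = m' ∨ (gk k v).2 = m' + 1)) → ∃ t ∈ KK.faces, ∀ u ∈ s, u ∈ t ∧ gk k u ∈ t := by
    intro m' h
    refine ⟨_, low_face y [] red_y m', fun u hu => ?_⟩
    have h0 := (hs2 u hu).1
    have e1 := lev_zero u h0
    have h0' : lev (gk k u) = 0 := by
      unfold gk
      split_ifs
      · exact h0
      · exact h0
      · exact h0
    have e2 := lev_zero (gk k u) h0'
    rw [e2, e1]
    exact ⟨hmem _ _ (h u hu).1, by rw [← e1]; exact hmem _ _ (h u hu).2⟩
  have gval : ∀ v : Vx, (gk k v).2 = if v.2 = k + 1 then (k : ℤ) else if v.2 = -(k + 1) then -(k : ℤ)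
      else v.2 := by
    intro v
    unfold gk
    split_ifs <;> rfl
  have habs : ∀ v ∈ s, -((k : ℤ) + 1) ≤ v.2 ∧ v.2 ≤ (k : ℤ) + 1 := by
    intro v hv
    have := (hs2 v hv).2
    push_cast at this
    exact abs_le.mp this
  by_cases c1 : m ≥ k + 1
  · apply gen k
    intro v hv
    have h1 := hm v hv
    have h2 := habs v hv
    rw [gval]
    split_ifs <;> omega
  · by_cases c2 : m ≤ -(k + 2)
    · apply gen (-(k + 1))
      intro v hv
      have h1 := hm v hv
      have h2 := habs v hv
      rw [gval]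
      split_ifs <;> omega
    · apply gen m
      intro v hv
      have h1 := hm v hv
      have h2 := habs v hv
      rw [gval]
      split_ifs <;> omega

theorem gk_abs (k : ℕ) (v : Vx) (hv : |v.2| ≤ (k : ℤ) + 1) : |(gk k v).2| ≤ k := by
  rw [abs_le] at hv ⊢
  unfold gk
  split_ifs
  · simp only; omega
  · simp only; omega
  · omega

theorem sdr_line (k : ℕ) : ∃ H, SDR (JL (k + 1)).cone (JL k).cone H := by
  refine ⟨_, push_sdr (JL (k + 1)) (JL k) (gk k) (gk_fin k) ?_ ?_ ?_⟩
  · intro s hs
    obtain ⟨t, ht, htu⟩ := line_union k s hs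
    have hlev : ∀ v, lev (gk k v) = lev v := by
      intro v
      unfold gk
      split_ifs <;> rfl
    refine ⟨KK.down ht ?_, ?_⟩
    · intro u hu
      rw [Finset.mem_union, Finset.mem_image] at hu
      rcases hu with hu | ⟨v, hv, rfl⟩
      · exact (htu u hu).1
      · exact (htu v hv).2
    · intro u hu
      rw [Finset.mem_union, Finset.mem_image] at hu
      rcases hu with hu | ⟨v, hv, rfl⟩
      · exact hs.2 u hu
      · have h1 := hs.2 v hv
        have h2 := gk_abs k v (by have := h1.2; push_cast at this; exact this)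
        refine ⟨by rw [hlev]; exact h1.1, ?_⟩
        push_cast
        omega
  · intro s hs
    obtain ⟨t, ht, htu⟩ := line_union k s hs
    have hlev : ∀ v, lev (gk k v) = lev v := by
      intro v
      unfold gk
      split_ifs <;> rfl
    refine ⟨KK.down ht ?_, ?_⟩
    · intro u hu
      rw [Finset.mem_image] at hu
      obtain ⟨v, hv, rfl⟩ := hu
      exact (htu v hv).2
    · intro u hu
      rw [Finset.mem_image] at hu
      obtain ⟨v, hv, rfl⟩ := hu
      have h1 := hs.2 v hv
      have h2 := gk_abs k v (by have := h1.2; push_cast at this; exact this)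
      exact ⟨by rw [hlev]; exact h1.1, h2⟩
  · intro s hs v hv
    have h1 := abs_le.mp (hs.2 v hv).2
    unfold gk
    rw [if_neg (by omega), if_neg (by omega)]

theorem sdr_line_big : ∃ H, SDR (KL 0).cone (JL 0).cone H := by
  choose h hF using sdr_line
  refine telescope (F := fun k => (JL k).cone) hF ?_ (KL 0).cone ?_ ?_
  · intro k
    refine cone_mono _ _ fun s hs => ⟨hs.1, fun v hv => ⟨(hs.2 v hv).1, ?_⟩⟩
    have := (hs.2 v hv).2
    push_cast
    omega
  · intro k
    exact cone_mono _ _ fun s hs => ⟨hs.1, fun v hv => (hs.2 v hv).1.le⟩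
  · intro θ hθ
    obtain ⟨v, hv⟩ := exists_pos hθ
    have key : ∀ θ' ∈ (KL 0).cone, 0 < θ' v → θ' ∈ (JL (v.2.natAbs + 1)).cone := by
      intro θ' hθ' hv'
      obtain ⟨s, hs, hsz⟩ := exists_supp hθ'
      have h0 : ∀ u ∈ s, lev u = 0 := fun u hu => Nat.le_zero.mp (hs.2 u hu)
      refine ⟨hθ'.1, hθ'.2.1, s, ⟨hs.1, ?_⟩, fun u hu => ?_⟩
      · intro u hu
        have hvs : v ∈ s := (hsz v).mpr hv'.ne'
        obtain ⟨m, hm⟩ := line_face s hs.1 h0
        have h1 := hm v hvs
        have h2 := hm u hu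
        refine ⟨h0 u hu, ?_⟩
        have h3 : ((v.2.natAbs + 1 : ℕ) : ℤ) = (v.2.natAbs : ℤ) + 1 := rfl
        rw [abs_le, h3]
        constructor <;> omega
      · by_contra h
        exact hu ((hsz u).mpr h)
    refine ⟨v.2.natAbs + 1, key θ hθ hv, ?_⟩
    have hopen : {θ' : Vx → ℝ | 0 < θ' v} ∈ 𝓝 θ :=
      (isOpen_lt continuous_const (continuous_apply v)).mem_nhds hv
    filter_upwards [self_mem_nhdsWithin, mem_nhdsWithin_of_mem_nhds hopen] with θ' h1 h2
    exact key θ' h1 h2

def v0 : Vx := (⟨[], rfl⟩, 0)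

theorem v0_face : {v0} ∈ KK.faces := by
  refine KK.down (low_face y [] red_y 0) ?_
  intro u hu
  rw [Finset.mem_singleton] at hu
  rw [mem_low]
  left
  rw [hu]
  rfl

theorem contr_point : Contr (JL 0).cone := by
  have h0 : ∀ θ ∈ (JL 0).cone, ∀ v, v ≠ v0 → θ v = 0 := by
    rintro θ ⟨_, _, s, hs, hsz⟩ v hv
    apply hsz
    intro hvs
    apply hv
    have h1 := hs.2 v hvs
    rw [lev_zero v h1.1]
    have h2 : v.2 = 0 := by
      have := h1.2
      simpa using this
    rw [h2]
    rfl
  have hv0 : ({v0} : Finset Vx) ∈ (JL 0).faces := by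
    refine ⟨v0_face, fun v hv => ?_⟩
    rw [Finset.mem_singleton] at hv
    rw [hv]
    exact ⟨rfl, by simp [v0]⟩
  refine ⟨fun t θ v => (1 - t) * θ v + t * (if v = v0 then 1 else 0),
    fun v => if v = v0 then 1 else 0, ?_, ?_, ?_, ?_, ?_⟩
  · refine ⟨fun v => by positivity, ?_, {v0}, hv0, fun v hv => ?_⟩
    · intro h
      have := congrFun h v0
      simp at this
    · rw [Finset.mem_singleton] at hv
      simp [hv]
  · apply Continuous.continuousOn
    apply continuous_pi
    intro v
    fun_prop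
  · intro t ht θ hθ
    have hpos : 0 < θ v0 := by
      obtain ⟨v, hv⟩ := exists_pos hθ
      by_cases h : v = v0
      · rw [← h]; exact hv
      · rw [h0 θ hθ v h] at hv
        exact absurd hv (lt_irrefl _)
    have h1 : 0 ≤ 1 - t := by linarith [ht.2]
    have h2 := ht.1
    refine ⟨fun v => ?_, ?_, {v0}, hv0, fun v hv => ?_⟩
    · have := hθ.1 v
      positivity
    · intro h
      have h3 := congrFun h v0
      simp only [if_true, Pi.zero_apply, mul_one] at h3
      rcases lt_or_eq_of_le h2 with h4 | h4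
      · have := mul_nonneg h1 hpos.le
        linarith
      · rw [← h4] at h3
        linarith
    · rw [Finset.mem_singleton] at hv
      simp only
      rw [h0 θ hθ v hv, if_neg hv]
      ring
  · intro θ _
    funext v
    ring
  · intro θ _
    funext v
    ring

theorem contractible_cone : ContractibleSpace KK.cone := by
  obtain ⟨H1, h1⟩ := sdr_big
  obtain ⟨H2, h2⟩ := sdr_line_big
  have c1 : Contr (KL 0).cone := contr_point.of_sdr h2 (cone_mono _ _ fun s hs =>
    ⟨hs.1, fun v hv => (hs.2 v hv).1.le⟩)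
  have c2 : Contr KK.cone := c1.of_sdr h1 (cone_mono _ _ fun s hs => hs.1)
  exact c2.contractible

theorem exists_complex : ∃ (E V : Type) (_ : Group E) (_ : MulAction E V) (_ : DecidableEq V)
    (K : SC V) (z x y t : E) (v₀ : V), z ∈ Subgroup.center E ∧ (∀ n : ℤ, z ^ n = 1 → n = 0) ∧
    x * y = y * x * z ∧ t * x = x ^ 2 * t ∧ (∀ v w : V, ∃ e : E, e • v = w) ∧
    (∀ (e : E) (v : V), e • v = v ↔ e ∈ Subgroup.zpowers z) ∧
    (∀ s ∈ K.faces, ∀ e : E, s.image (e • ·) ∈ K.faces) ∧
    (∀ s ∈ K.faces, s.Nonempty → ∀ e : E, s.image (e • ·) = s → e ∈ Subgroup.zpowers z) ∧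
    {v₀} ∈ K.faces ∧ K.LocFin ∧ ContractibleSpace K.cone :=
  ⟨E, Vx, inferInstance, inferInstance, inferInstance, KK, zE, xE, yE, tE, v0, zE_center,
    zE_inf, rel_xy, rel_tx, smul_trans, smul_stab, faces_inv, face_stab, v0_face, locFin,
    contractible_cone⟩

end Pool.Agent.Helper35.CircD
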