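import Pool.Agent.Helper35.CircD.Act
set_option autoImplicit false
namespace Pool.Agent.Helper35.CircD
open Lt Pool.Agent.Helper82.Circ

/-- apex of the leaf edge `n` -/
def Aa : Lt → ℤ → ℤ
  | y, n => n + 1
  | Y, n => n
  | t0, n => 2 * n + 1
  | t1, n => 2 * n + 2
  | T, n => (n + 1) / 2

def Cc : Lt → ℤ → ℤ
  | y, m => m
  | Y, m => m + 1
  | t0, m => (m + 1) / 2
  | t1, m => m / 2
  | T, m => 2 * m + 1

def Pp : Lt → ℤ → ℤ
  | y, n => n
  | Y, n => n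
  | t0, n => 2 * n
  | t1, n => 2 * n + 1
  | T, n => n / 2

def up (a : Lt) (l : List Lt) (h : red (a :: l) = true) (n : ℤ) : Finset Vx :=
  {(⟨a :: l, h⟩, n), (⟨a :: l, h⟩, n + 1), (⟨l, red_tail h⟩, Aa a n)}

def low (a : Lt) (l : List Lt) (h : red (a :: l) = true) (m : ℤ) : Finset Vx :=
  {(⟨l, red_tail h⟩, m), (⟨l, red_tail h⟩, m + 1), (⟨a :: l, h⟩, Cc a m)}

theorem my_eq (l : List Lt) (h : red (y :: l) = true) : my ⟨l, red_tail h⟩ = ⟨y :: l, h⟩ := by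
  rcases l with _ | ⟨b, l⟩
  · rfl
  · cases b <;> first | rfl | (exfalso; simp [red, okh, ok] at h)

theorem mt0_eq (l : List Lt) (h : red (t0 :: l) = true) : mt0 ⟨l, red_tail h⟩ = ⟨t0 :: l, h⟩ := by
  rcases l with _ | ⟨b, l⟩
  · rfl
  · cases b <;> first | rfl | (exfalso; simp [red, okh, ok] at h)

theorem rt_even (w : W) (j : ℤ) : rt (w, 2 * j) = (mt0 w, j) := by
  change rtf (w, 2 * j) = _
  unfold rtf
  have h1 : (2 * j) % 2 = 0 := by omega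
  have h2 : (2 * j) / 2 = j := by omega
  simp only [h1, h2, if_true]

theorem rt_odd (w : W) (j : ℤ) : rt (w, 2 * j + 1) = (mt1 w, j) := by
  change rtf (w, 2 * j + 1) = _
  unfold rtf
  have h1 : (2 * j + 1) % 2 = 1 := by omega
  have h2 : (2 * j + 1) / 2 = j := by omega
  simp only [h1, h2]
  norm_num

theorem up_face (a : Lt) (l : List Lt) (h : red (a :: l) = true) (n : ℤ) :
    up a l h n ∈ KK.faces := by
  cases a
  · refine ⟨T2 (⟨l, red_tail h⟩, n), ⟨_, Or.inr (Or.inl rfl)⟩, ?_⟩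
    simp only [T2, up, Aa, rx_apply, ry_apply, my_eq l h]
    intro v hv
    simp only [Finset.mem_insert, Finset.mem_singleton] at hv ⊢
    tauto
  · refine ⟨T1 (⟨Y :: l, h⟩, n), ⟨_, Or.inl rfl⟩, ?_⟩
    have e : my ⟨Y :: l, h⟩ = ⟨l, red_tail h⟩ := rfl
    simp only [T1, up, Aa, rx_apply, ry_apply, e]
    exact Finset.Subset.refl _
  · refine ⟨T4 (⟨l, red_tail h⟩, 2 * n), ⟨_, Or.inr (Or.inr (Or.inr (Or.inl rfl)))⟩, ?_⟩
    simp only [T4, up, Aa, rx_apply, rt_even, mt0_eq l h]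
    intro v hv
    simp only [Finset.mem_insert, Finset.mem_singleton] at hv ⊢
    tauto
  · refine ⟨T4 (⟨l, red_tail h⟩, 2 * n + 1), ⟨_, Or.inr (Or.inr (Or.inr (Or.inl rfl)))⟩, ?_⟩
    have e : mt1 ⟨l, red_tail h⟩ = ⟨t1 :: l, h⟩ := rfl
    have e2 : 2 * n + 1 + 1 = 2 * n + 2 := by ring
    simp only [T4, up, Aa, rx_apply, rt_odd, e, e2]
    intro v hv
    simp only [Finset.mem_insert, Finset.mem_singleton] at hv ⊢
    tauto
  · have e : mt0 ⟨T :: l, h⟩ = ⟨l, red_tail h⟩ := rfl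
    rcases Int.even_or_odd' n with ⟨j, rfl | rfl⟩
    · refine ⟨T3 (⟨T :: l, h⟩, 2 * j), ⟨_, Or.inr (Or.inr (Or.inl rfl))⟩, ?_⟩
      have e2 : (2 * j + 1) / 2 = j := by omega
      simp only [T3, up, Aa, rx_apply, rt_even, e, e2]
      exact Finset.Subset.refl _
    · refine ⟨T5 (⟨T :: l, h⟩, 2 * j), ⟨_, Or.inr (Or.inr (Or.inr (Or.inr rfl)))⟩, ?_⟩
      have e2 : (2 * j + 1 + 1) / 2 = j + 1 := by omega
      simp only [T5, up, Aa, rx_apply, rt_even, e, e2]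
      exact Finset.Subset.refl _

theorem low_face (a : Lt) (l : List Lt) (h : red (a :: l) = true) (m : ℤ) :
    low a l h m ∈ KK.faces := by
  cases a
  · refine ⟨T1 (⟨l, red_tail h⟩, m), ⟨_, Or.inl rfl⟩, ?_⟩
    simp only [T1, low, Cc, rx_apply, ry_apply, my_eq l h]
    exact Finset.Subset.refl _
  · refine ⟨T2 (⟨Y :: l, h⟩, m), ⟨_, Or.inr (Or.inl rfl)⟩, ?_⟩
    have e : my ⟨Y :: l, h⟩ = ⟨l, red_tail h⟩ := rfl
    simp only [T2, low, Cc, rx_apply, ry_apply, e]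
    intro v hv
    simp only [Finset.mem_insert, Finset.mem_singleton] at hv ⊢
    tauto
  · rcases Int.even_or_odd' m with ⟨j, rfl | rfl⟩
    · refine ⟨T3 (⟨l, red_tail h⟩, 2 * j), ⟨_, Or.inr (Or.inr (Or.inl rfl))⟩, ?_⟩
      have e2 : (2 * j + 1) / 2 = j := by omega
      simp only [T3, low, Cc, rx_apply, rt_even, mt0_eq l h, e2]
      exact Finset.Subset.refl _
    · refine ⟨T5 (⟨l, red_tail h⟩, 2 * j), ⟨_, Or.inr (Or.inr (Or.inr (Or.inr rfl)))⟩, ?_⟩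
      have e2 : (2 * j + 1 + 1) / 2 = j + 1 := by omega
      simp only [T5, low, Cc, rx_apply, rt_even, mt0_eq l h, e2]
      exact Finset.Subset.refl _
  · have e : mt1 ⟨l, red_tail h⟩ = ⟨t1 :: l, h⟩ := rfl
    rcases Int.even_or_odd' m with ⟨j, rfl | rfl⟩
    · refine ⟨T5 (⟨l, red_tail h⟩, 2 * (j - 1) + 1), ⟨_, Or.inr (Or.inr (Or.inr (Or.inr rfl)))⟩, ?_⟩
      have e2 : (2 * j) / 2 = j := by omega
      have e3 : 2 * (j - 1) + 1 + 1 = 2 * j := by ring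
      have e4 : j - 1 + 1 = j := by ring
      simp only [T5, low, Cc, rx_apply, rt_odd, e, e2, e3, e4]
      exact Finset.Subset.refl _
    · refine ⟨T3 (⟨l, red_tail h⟩, 2 * j + 1), ⟨_, Or.inr (Or.inr (Or.inl rfl))⟩, ?_⟩
      have e2 : (2 * j + 1) / 2 = j := by omega
      simp only [T3, low, Cc, rx_apply, rt_odd, e, e2]
      exact Finset.Subset.refl _
  · refine ⟨T4 (⟨T :: l, h⟩, 2 * m), ⟨_, Or.inr (Or.inr (Or.inr (Or.inl rfl)))⟩, ?_⟩
    have e : mt0 ⟨T :: l, h⟩ = ⟨l, red_tail h⟩ := rfl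
    simp only [T4, low, Cc, rx_apply, rt_even, e]
    intro v hv
    simp only [Finset.mem_insert, Finset.mem_singleton] at hv ⊢
    tauto

theorem my_cases (w : W) : (∃ l h, w = ⟨Y :: l, h⟩ ∧ my w = ⟨l, red_tail h⟩) ∨
    (∃ h : red (y :: w.1) = true, my w = ⟨y :: w.1, h⟩) := by
  rcases w with ⟨_ | ⟨a, l⟩, h⟩
  · right; exact ⟨rfl, rfl⟩
  · cases a
    · right; exact ⟨red_mk rfl h, rfl⟩
    · left; exact ⟨l, h, rfl, rfl⟩
    · right; exact ⟨red_mk rfl h, rfl⟩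
    · right; exact ⟨red_mk rfl h, rfl⟩
    · right; exact ⟨red_mk rfl h, rfl⟩

theorem mt0_cases (w : W) : (∃ l h, w = ⟨T :: l, h⟩ ∧ mt0 w = ⟨l, red_tail h⟩) ∨
    (∃ h : red (t0 :: w.1) = true, mt0 w = ⟨t0 :: w.1, h⟩) := by
  rcases w with ⟨_ | ⟨a, l⟩, h⟩
  · right; exact ⟨rfl, rfl⟩
  · cases a
    · right; exact ⟨red_mk rfl h, rfl⟩
    · right; exact ⟨red_mk rfl h, rfl⟩
    · right; exact ⟨red_mk rfl h, rfl⟩
    · right; exact ⟨red_mk rfl h, rfl⟩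
    · left; exact ⟨l, h, rfl, rfl⟩

/-- every triangle is contained in a strip triangle -/
theorem tri_strip (Tr : Finset Vx) (hT : IsTri Tr) :
    ∃ a l, ∃ h : red (a :: l) = true, (∃ n, Tr ⊆ up a l h n) ∨ (∃ m, Tr ⊆ low a l h m) := by
  obtain ⟨⟨w, n⟩, hp⟩ := hT
  have sub : ∀ (s t : Finset Vx), (∀ v, v ∈ s → v ∈ t) → s ⊆ t := fun s t h v hv => h v hv
  rcases hp with rfl | rfl | rfl | rfl | rfl
  · rcases my_cases w with ⟨l, h, rfl, e⟩ | ⟨h, e⟩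
    · refine ⟨Y, l, h, Or.inl ⟨n, ?_⟩⟩
      simp only [T1, up, Aa, rx_apply, ry_apply, e]
      exact Finset.Subset.refl _
    · refine ⟨y, w.1, h, Or.inr ⟨n, ?_⟩⟩
      simp only [T1, low, Cc, rx_apply, ry_apply, e]
      exact Finset.Subset.refl _
  · rcases my_cases w with ⟨l, h, rfl, e⟩ | ⟨h, e⟩
    · refine ⟨Y, l, h, Or.inr ⟨n, ?_⟩⟩
      simp only [T2, low, Cc, rx_apply, ry_apply, e]
      refine sub _ _ fun v hv => ?_
      simp only [Finset.mem_insert, Finset.mem_singleton] at hv ⊢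
      tauto
    · refine ⟨y, w.1, h, Or.inl ⟨n, ?_⟩⟩
      simp only [T2, up, Aa, rx_apply, ry_apply, e]
      refine sub _ _ fun v hv => ?_
      simp only [Finset.mem_insert, Finset.mem_singleton] at hv ⊢
      tauto
  all_goals
    have e1 : ∀ w : W, mt1 w = ⟨t1 :: w.1, red_mk (okh_t1 _) w.2⟩ := fun _ => rfl
    rcases Int.even_or_odd' n with ⟨j, rfl | rfl⟩
  · rcases mt0_cases w with ⟨l, h, rfl, e⟩ | ⟨h, e⟩
    · refine ⟨T, l, h, Or.inl ⟨2 * j, ?_⟩⟩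
      have e2 : (2 * j + 1) / 2 = j := by omega
      simp only [T3, up, Aa, rx_apply, rt_even, e, e2]
      exact Finset.Subset.refl _
    · refine ⟨t0, w.1, h, Or.inr ⟨2 * j, ?_⟩⟩
      have e2 : (2 * j + 1) / 2 = j := by omega
      simp only [T3, low, Cc, rx_apply, rt_even, e, e2]
      exact Finset.Subset.refl _
  · refine ⟨t1, w.1, red_mk (okh_t1 _) w.2, Or.inr ⟨2 * j + 1, ?_⟩⟩
    have e2 : (2 * j + 1) / 2 = j := by omega
    simp only [T3, low, Cc, rx_apply, rt_odd, e1, e2]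
    exact Finset.Subset.refl _
  · rcases mt0_cases w with ⟨l, h, rfl, e⟩ | ⟨h, e⟩
    · refine ⟨T, l, h, Or.inr ⟨j, ?_⟩⟩
      simp only [T4, low, Cc, rx_apply, rt_even, e]
      refine sub _ _ fun v hv => ?_
      simp only [Finset.mem_insert, Finset.mem_singleton] at hv ⊢
      tauto
    · refine ⟨t0, w.1, h, Or.inl ⟨j, ?_⟩⟩
      simp only [T4, up, Aa, rx_apply, rt_even, e]
      refine sub _ _ fun v hv => ?_
      simp only [Finset.mem_insert, Finset.mem_singleton] at hv ⊢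
      tauto
  · refine ⟨t1, w.1, red_mk (okh_t1 _) w.2, Or.inl ⟨j, ?_⟩⟩
    have e2 : 2 * j + 1 + 1 = 2 * j + 2 := by ring
    simp only [T4, up, Aa, rx_apply, rt_odd, e1, e2]
    refine sub _ _ fun v hv => ?_
    simp only [Finset.mem_insert, Finset.mem_singleton] at hv ⊢
    tauto
  · rcases mt0_cases w with ⟨l, h, rfl, e⟩ | ⟨h, e⟩
    · refine ⟨T, l, h, Or.inl ⟨2 * j + 1, ?_⟩⟩
      have e2 : (2 * j + 1 + 1) / 2 = j + 1 := by omega
      simp only [T5, up, Aa, rx_apply, rt_even, e, e2]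
      exact Finset.Subset.refl _
    · refine ⟨t0, w.1, h, Or.inr ⟨2 * j + 1, ?_⟩⟩
      have e2 : (2 * j + 1 + 1) / 2 = j + 1 := by omega
      simp only [T5, low, Cc, rx_apply, rt_even, e, e2]
      exact Finset.Subset.refl _
  · refine ⟨t1, w.1, red_mk (okh_t1 _) w.2, Or.inr ⟨2 * j + 2, ?_⟩⟩
    have e2 : (2 * j + 2) / 2 = j + 1 := by omega
    have e3 : 2 * j + 1 + 1 = 2 * j + 2 := by ring
    simp only [T5, low, Cc, rx_apply, rt_odd, e1, e2, e3]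
    exact Finset.Subset.refl _

theorem face_strip (s : Finset Vx) (hs : s ∈ KK.faces) :
    ∃ a l, ∃ h : red (a :: l) = true, (∃ n, s ⊆ up a l h n) ∨ (∃ m, s ⊆ low a l h m) := by
  obtain ⟨Tr, hT, hsT⟩ := hs
  obtain ⟨a, l, h, ⟨n, hn⟩ | ⟨m, hm⟩⟩ := tri_strip Tr hT
  · exact ⟨a, l, h, Or.inl ⟨n, hsT.trans hn⟩⟩
  · exact ⟨a, l, h, Or.inr ⟨m, hsT.trans hm⟩⟩

end Pool.Agent.Helper35.CircD
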