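import Mathlib
set_option autoImplicit false
namespace Pool.Agent.Helper35.CircD
open Set Topology

variable {X : Type*} [TopologicalSpace X]

/-- `h` is a strong deformation retraction of `A` into `B` -/
structure SDR (A B : Set X) (h : ℝ → X → X) : Prop where
  cont : ContinuousOn (fun p : ℝ × X => h p.1 p.2) (Icc 0 1 ×ˢ A)
  maps : ∀ t ∈ Icc (0 : ℝ) 1, ∀ x ∈ A, h t x ∈ A
  zero : ∀ x ∈ A, h 0 x = x
  one : ∀ x ∈ A, h 1 x ∈ B
  fix : ∀ x ∈ B, ∀ t ∈ Icc (0 : ℝ) 1, h t x = x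

/-- the time function of stage `k` -/
noncomputable def tm (k : ℕ) (s : ℝ) : ℝ := max 0 (min 1 (2 ^ (k + 1) * s - 1))

theorem tm_mem (k : ℕ) (s : ℝ) : tm k s ∈ Icc (0 : ℝ) 1 :=
  ⟨le_max_left _ _, max_le zero_le_one (min_le_left _ _)⟩

theorem tm_cont (k : ℕ) : Continuous (tm k) := by
  unfold tm
  fun_prop

theorem tm_zero (k : ℕ) (s : ℝ) (hs : s ≤ (1 / 2) ^ (k + 1)) : tm k s = 0 := by
  unfold tm
  have h1 : (2 : ℝ) ^ (k + 1) * s ≤ 1 := by
    calc (2 : ℝ) ^ (k + 1) * s ≤ 2 ^ (k + 1) * (1 / 2) ^ (k + 1) := by gcongr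
      _ = 1 := by rw [← mul_pow]; norm_num
  rw [max_eq_left]
  exact le_trans (min_le_right _ _) (by linarith)

theorem tm_one (k : ℕ) : tm k ((1 / 2) ^ k) = 1 := by
  unfold tm
  have h1 : (2 : ℝ) ^ (k + 1) * (1 / 2) ^ k = 2 := by
    rw [pow_succ, mul_right_comm, ← mul_pow]
    norm_num
  rw [h1]
  norm_num

/-- the composed homotopies -/
noncomputable def GG (h : ℕ → ℝ → X → X) : ℕ → ℝ → X → X
  | 0, _, x => x
  | k + 1, s, x => if s ≤ (1 / 2) ^ k then h k (tm k s) x else GG h k s (h k 1 x)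

variable {F : ℕ → Set X} {h : ℕ → ℝ → X → X}

theorem GG_small (hF : ∀ k, SDR (F (k + 1)) (F k) (h k)) (k : ℕ) (s : ℝ)
    (hs : s ≤ (1 / 2) ^ k) (x : X) (hx : x ∈ F k) : GG h k s x = x := by
  cases k with
  | zero => rfl
  | succ k =>
    have h1 : s ≤ (1 / 2 : ℝ) ^ k := le_trans hs (by
      rw [pow_succ]
      have : (0 : ℝ) < (1 / 2) ^ k := by positivity
      linarith)
    simp only [GG, if_pos h1]
    rw [tm_zero k s hs]
    exact (hF k).zero x hx

theorem GG_maps (hF : ∀ k, SDR (F (k + 1)) (F k) (h k)) (hm : ∀ k, F k ⊆ F (k + 1)) (k : ℕ) :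
    ∀ s ∈ Icc (0 : ℝ) 1, ∀ x ∈ F k, GG h k s x ∈ F k := by
  induction k with
  | zero => intro s _ x hx; exact hx
  | succ k ih =>
    intro s hs x hx
    simp only [GG]
    split_ifs
    · exact (hF k).maps _ (tm_mem k s) x hx
    · exact hm k (ih s hs _ ((hF k).one x hx))

theorem GG_one (hF : ∀ k, SDR (F (k + 1)) (F k) (h k)) (k : ℕ) :
    ∀ x ∈ F k, GG h k 1 x ∈ F 0 := by
  induction k with
  | zero => intro x hx; exact hx
  | succ k ih =>
    intro x hx
    simp only [GG]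
    split_ifs with h1
    · have hk : k = 0 := by
        by_contra hk
        have : (1 / 2 : ℝ) ^ k < 1 := pow_lt_one₀ (by norm_num) (by norm_num) hk
        linarith
      subst hk
      have := tm_one 0
      simp only [pow_zero] at this
      rw [this]
      exact (hF 0).one x hx
    · exact ih _ ((hF k).one x hx)

theorem GG_succ (hF : ∀ k, SDR (F (k + 1)) (F k) (h k)) (k : ℕ) (s : ℝ)
    (x : X) (hx : x ∈ F k) : GG h (k + 1) s x = GG h k s x := by
  simp only [GG]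
  split_ifs with h1
  · rw [(hF k).fix x hx _ (tm_mem k s), GG_small hF k s h1 x hx]
  · rw [(hF k).fix x hx 1 (by simp)]

theorem mono_le (hm : ∀ k, F k ⊆ F (k + 1)) {j k : ℕ} (hjk : j ≤ k) : F j ⊆ F k :=
  monotone_nat_of_le_succ hm hjk

theorem GG_le (hF : ∀ k, SDR (F (k + 1)) (F k) (h k)) (hm : ∀ k, F k ⊆ F (k + 1)) (j k : ℕ)
    (hjk : j ≤ k) (s : ℝ) (x : X) (hx : x ∈ F j) : GG h k s x = GG h j s x := by
  induction k, hjk using Nat.le_induction with
  | base => rfl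
  | succ k hk ih => rw [GG_succ hF k s x (mono_le hm hk hx), ih]

theorem GG_cont (hF : ∀ k, SDR (F (k + 1)) (F k) (h k)) (k : ℕ) :
    ContinuousOn (fun p : ℝ × X => GG h k p.1 p.2) (Icc 0 1 ×ˢ F k) := by
  induction k with
  | zero => exact continuousOn_snd
  | succ k ih =>
    simp only [GG]
    have c1 : ContinuousOn (fun p : ℝ × X => h k (tm k p.1) p.2) (Icc 0 1 ×ˢ F (k + 1)) := by
      have := (hF k).cont.comp (f := fun p : ℝ × X => (tm k p.1, p.2))
        (s := Icc 0 1 ×ˢ F (k + 1)) (((tm_cont k).comp continuous_fst).prodMk continuous_snd).continuousOn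
        (fun p hp => ⟨tm_mem k p.1, hp.2⟩)
      exact this
    have c2 : ContinuousOn (fun p : ℝ × X => h k 1 p.2) (Icc 0 1 ×ˢ F (k + 1)) := by
      have := (hF k).cont.comp (f := fun p : ℝ × X => ((1 : ℝ), p.2))
        (s := Icc 0 1 ×ˢ F (k + 1)) ((continuous_const).prodMk continuous_snd).continuousOn
        (fun p hp => ⟨by simp, hp.2⟩)
      exact this
    have c3 : ContinuousOn (fun p : ℝ × X => GG h k p.1 (h k 1 p.2)) (Icc 0 1 ×ˢ F (k + 1)) := by
      have := ih.comp (f := fun p : ℝ × X => (p.1, h k 1 p.2))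
        (s := Icc 0 1 ×ˢ F (k + 1)) (continuousOn_fst.prodMk c2)
        (fun p hp => ⟨hp.1, (hF k).one _ hp.2⟩)
      exact this
    apply ContinuousOn.if
    · rintro ⟨s, x⟩ ⟨⟨_, hx⟩, hfr⟩
      have hs : s = (1 / 2) ^ k := by
        have h1 : frontier {a : ℝ × X | a.1 ≤ (1 / 2) ^ k} ⊆ {a : ℝ × X | a.1 = (1 / 2) ^ k} :=
          frontier_le_subset_eq continuous_fst continuous_const
        exact h1 hfr
      simp only
      rw [hs, tm_one]
      exact (GG_small hF k _ le_rfl _ ((hF k).one x hx)).symm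
    · exact c1.mono inter_subset_left
    · exact c3.mono inter_subset_left

/-- The telescope of strong deformation retractions. -/
theorem telescope (hF : ∀ k, SDR (F (k + 1)) (F k) (h k)) (hm : ∀ k, F k ⊆ F (k + 1)) (A : Set X)
    (hA1 : ∀ k, F k ⊆ A) (hA2 : ∀ x ∈ A, ∃ k, x ∈ F k ∧ F k ∈ 𝓝[A] x) :
    ∃ H : ℝ → X → X, SDR A (F 0) H := by
  classical
  have hex : ∀ x : X, ∃ k, x ∈ A → x ∈ F k := by
    intro x
    by_cases hx : x ∈ A
    · obtain ⟨k, hk, _⟩ := hA2 x hx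
      exact ⟨k, fun _ => hk⟩
    · exact ⟨0, fun h => absurd h hx⟩
  choose K hK using hex
  have key : ∀ k s, ∀ x ∈ F k, GG h (K x) s x = GG h k s x := by
    intro k s x hx
    have h1 := GG_le hF hm (K x) (max k (K x)) (le_max_right _ _) s x (hK x (hA1 k hx))
    have h2 := GG_le hF hm k (max k (K x)) (le_max_left _ _) s x hx
    rw [← h1, h2]
  refine ⟨fun s x => GG h (K x) s x, ⟨?_, ?_, ?_, ?_, ?_⟩⟩
  · rintro ⟨s, x⟩ ⟨hs, hx⟩
    obtain ⟨k, hk, hn⟩ := hA2 x hx
    have h1 := GG_cont hF k (s, x) ⟨hs, hk⟩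
    have h2 : ContinuousWithinAt (fun p : ℝ × X => GG h k p.1 p.2) (Icc 0 1 ×ˢ A) (s, x) := by
      apply h1.mono_of_mem_nhdsWithin
      rw [nhdsWithin_prod_eq]
      exact Filter.prod_mem_prod self_mem_nhdsWithin hn
    refine h2.congr_of_eventuallyEq ?_ (key k s x hk)
    have h3 : (Icc (0 : ℝ) 1 ×ˢ F k) ∈ 𝓝[Icc 0 1 ×ˢ A] (s, x) := by
      rw [nhdsWithin_prod_eq]
      exact Filter.prod_mem_prod self_mem_nhdsWithin hn
    filter_upwards [h3] with p hp
    exact key k p.1 p.2 hp.2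
  · intro t ht x hx
    exact hA1 _ (GG_maps hF hm _ t ht x (hK x hx))
  · intro x hx
    exact GG_small hF _ 0 (by positivity) x (hK x hx)
  · intro x hx
    exact GG_one hF _ x (hK x hx)
  · intro x hx t _
    exact key 0 t x hx

/-- contractibility inside the ambient space -/
def Contr (A : Set X) : Prop :=
  ∃ (H : ℝ → X → X) (x₀ : X), x₀ ∈ A ∧ ContinuousOn (fun p : ℝ × X => H p.1 p.2) (Icc 0 1 ×ˢ A) ∧
    (∀ t ∈ Icc (0 : ℝ) 1, ∀ x ∈ A, H t x ∈ A) ∧ (∀ x ∈ A, H 0 x = x) ∧ ∀ x ∈ A, H 1 x = x₀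

theorem Contr.of_sdr {A B : Set X} {H : ℝ → X → X} (hS : SDR A B H) (hBA : B ⊆ A) (hB : Contr B) :
    Contr A := by
  obtain ⟨K, x₀, hx₀, hc, hm, h0, h1⟩ := hB
  have c1 : ContinuousOn (fun p : ℝ × X => H (min 1 (2 * p.1)) p.2) (Icc 0 1 ×ˢ A) := by
    have := hS.cont.comp (f := fun p : ℝ × X => (min 1 (2 * p.1), p.2))
      (s := Icc 0 1 ×ˢ A) (by fun_prop)
      (fun p hp => ⟨⟨le_min zero_le_one (by have := hp.1.1; linarith), min_le_left _ _⟩, hp.2⟩)
    exact this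
  have c2 : ContinuousOn (fun p : ℝ × X => H 1 p.2) (Icc 0 1 ×ˢ A) := by
    have := hS.cont.comp (f := fun p : ℝ × X => ((1 : ℝ), p.2))
      (s := Icc 0 1 ×ˢ A) (by fun_prop) (fun p hp => ⟨by simp, hp.2⟩)
    exact this
  have c3 : ContinuousOn (fun p : ℝ × X => K (max 0 (2 * p.1 - 1)) (H 1 p.2)) (Icc 0 1 ×ˢ A) := by
    have := hc.comp (f := fun p : ℝ × X => (max 0 (2 * p.1 - 1), H 1 p.2))
      (s := Icc 0 1 ×ˢ A) (ContinuousOn.prodMk (by fun_prop) c2)
      (fun p hp => ⟨⟨le_max_left _ _, max_le zero_le_one (by have := hp.1.2; linarith)⟩,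
        hS.one _ hp.2⟩)
    exact this
  refine ⟨fun t x => if t ≤ 1 / 2 then H (min 1 (2 * t)) x else K (max 0 (2 * t - 1)) (H 1 x),
    x₀, hBA hx₀, ?_, ?_, ?_, ?_⟩
  · apply ContinuousOn.if
    · rintro ⟨s, x⟩ ⟨⟨_, hx⟩, hfr⟩
      have hs : s = 1 / 2 := by
        have h1 : frontier {a : ℝ × X | a.1 ≤ 1 / 2} ⊆ {a : ℝ × X | a.1 = 1 / 2} :=
          frontier_le_subset_eq continuous_fst continuous_const
        exact h1 hfr
      simp only
      rw [hs]
      norm_num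
      exact (h0 _ (hS.one x hx)).symm
    · exact c1.mono inter_subset_left
    · exact c3.mono inter_subset_left
  · intro t ht x hx
    simp only
    split_ifs
    · exact hS.maps _ ⟨le_min zero_le_one (by have := ht.1; linarith), min_le_left _ _⟩ x hx
    · exact hBA (hm _ ⟨le_max_left _ _, max_le zero_le_one (by have := ht.2; linarith)⟩ _
        (hS.one x hx))
  · intro x hx
    simp only
    rw [if_pos (by norm_num)]
    norm_num
    exact hS.zero x hx
  · intro x hx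
    simp only
    rw [if_neg (by norm_num)]
    norm_num
    exact h1 _ (hS.one x hx)

theorem Contr.contractible {A : Set X} (hA : Contr A) : ContractibleSpace A := by
  obtain ⟨H, x₀, hx₀, hc, hm, h0, h1⟩ := hA
  refine (contractible_iff_id_nullhomotopic A).mpr ⟨⟨x₀, hx₀⟩, ⟨?_⟩⟩
  refine
    { toFun := fun p => ⟨H p.1.1 p.2.1, hm _ p.1.2 _ p.2.2⟩
      continuous_toFun := ?_
      map_zero_left := ?_
      map_one_left := ?_ }
  · apply Continuous.subtype_mk
    have := continuousOn_iff_continuous_domRestrict.mp hc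
    have h2 : Continuous (fun p : unitInterval × A => (⟨(p.1.1, p.2.1), ⟨p.1.2, p.2.2⟩⟩ :
        (Icc (0 : ℝ) 1 ×ˢ A : Set (ℝ × X)))) := by
      apply Continuous.subtype_mk
      fun_prop
    exact this.comp h2
  · intro x
    apply Subtype.ext
    exact h0 _ x.2
  · intro x
    apply Subtype.ext
    exact h1 _ x.2

end Pool.Agent.Helper35.CircD
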